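import Mathlib
import Pool.Agent.helper67.IF.Susp

/-!
# Stokes functionals of `z ^ c * g` at a common exponent
-/

set_option autoImplicit false

namespace Pool.Agent.helper67.LY

open MvPolynomial
open Pool.Agent.helper67.IF

variable {σ ρ : Type} [Fintype σ] {e1 : σ → ρ} {z : ρ}

open Classical in
/-- **The polynomials `z ^ c * g`** with `c * (b₁ + … ) = m`. -/
theorem HasStokes.log (h : Split e1 (fun _ : Unit => z)) {g : MvPolynomial σ ℂ}
    (hg : HasStokes g) {b : σ → ℕ} {m : ℕ} (hm : 1 ≤ m) (hb : g.IsWeightedHomogeneous b m)
    (c : ℕ) (hcm : c * ∑ i, b i = m) :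
    HasStokes (X z ^ c * rename e1 g) := by
  obtain ⟨G, hG, hG1⟩ := hg
  have hmC : (m : ℂ) ≠ 0 := by exact_mod_cast (by omega : m ≠ 0)
  have hc1 : 1 ≤ c := by
    rcases Nat.eq_zero_or_pos c with h0 | h0
    · rw [h0, zero_mul] at hcm; omega
    · exact h0
  set S : ℂ := (∑ i, (b i : ℂ)) / m with hS
  have hcS : (c : ℂ) * S = 1 := by
    rw [hS]
    field_simp
    exact_mod_cast hcm
  set W : ℤ → ℂ := fun x => if x = 0 then 1 else 0 with hW
  have hWrec : ∀ x : ℤ, (x : ℂ) * W x = 0 := by
    intro x
    by_cases hx : x = 0
    · rw [hx]; simp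
    · simp only [hW]; rw [if_neg hx, mul_zero]
  -- the functional
  set F : (σ →₀ ℕ) → (Unit →₀ ℕ) → ℂ := fun v u =>
    if m ∣ Finsupp.weight b v then
      G (monomial v 1) * W ((u () : ℤ) - c * ((Finsupp.weight b v / m : ℕ) : ℤ)) else 0 with hF
  have hXz : ∀ γ : ℕ, (X z ^ γ : MvPolynomial ρ ℂ) =
      rename (fun _ : Unit => z) (monomial (Finsupp.single () γ) 1) := by
    intro γ
    rw [rename_monomial, Finsupp.mapDomain_single, X_pow_eq_monomial]
  -- values on homogeneous polynomials
  have hval : ∀ (φ : MvPolynomial σ ℂ) (e : ℕ), φ.IsWeightedHomogeneous b e → ∀ γ : ℕ,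
      h.G F (rename e1 φ * X z ^ γ) =
        if m ∣ e then G φ * W ((γ : ℤ) - c * ((e / m : ℕ) : ℤ)) else 0 := by
    intro φ e hφ γ
    have h1 : h.G F (rename e1 φ * X z ^ γ) = ∑ v ∈ φ.support, coeff v φ *
        (if m ∣ e then G (monomial v 1) * W ((γ : ℤ) - c * ((e / m : ℕ) : ℤ)) else 0) := by
      conv_lhs => rw [φ.as_sum]
      rw [map_sum, Finset.sum_mul, map_sum]
      refine Finset.sum_congr rfl fun v hv => ?_
      rw [hXz, h.G_monomial, mul_one]
      simp only [hF]
      rw [hφ (mem_support_iff.1 hv), Finsupp.single_eq_same]
    rw [h1]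
    by_cases hme : m ∣ e
    · simp only [if_pos hme]
      have h2 : G φ = ∑ v ∈ φ.support, coeff v φ * G (monomial v 1) := by
        conv_lhs => rw [φ.as_sum]
        rw [map_sum]
        refine Finset.sum_congr rfl fun v _ => ?_
        have e1 : (monomial v (coeff v φ) : MvPolynomial σ ℂ) = coeff v φ • monomial v 1 := by
          rw [smul_monomial, smul_eq_mul, mul_one]
        rw [e1, map_smul, smul_eq_mul]
      rw [h2, Finset.sum_mul]
      exact Finset.sum_congr rfl fun v _ => by ring
    · simp only [if_neg hme, mul_zero, Finset.sum_const_zero]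
  refine hasStokes_of_monomial _ (h.G F) ?_ ?_
  · intro r u
    rw [h.monomial_eq u]
    set v := h.c1 u with hv
    set γ : ℕ := h.c2 u () with hγ
    have hu2 : (h.c2 u) = Finsupp.single () γ := by
      ext; simp [hγ]
    rw [hu2, ← hXz]
    have hvh : (monomial v (1 : ℂ)).IsWeightedHomogeneous b (Finsupp.weight b v) :=
      isWeightedHomogeneous_monomial b v 1 rfl
    set e := Finsupp.weight b v with he
    rcases h.cover r with ⟨i, rfl⟩ | ⟨j, rfl⟩
    · -- derivative in a variable of `g`
      have hL : pderiv (e1 i) (rename e1 (monomial v (1 : ℂ)) * X z ^ γ) =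
          rename e1 (pderiv i (monomial v (1 : ℂ))) * X z ^ γ := by
        rw [hXz, h.pderiv1]
      have hR : rename e1 (monomial v (1 : ℂ)) * X z ^ γ *
          pderiv (e1 i) (X z ^ c * rename e1 g) =
          rename e1 (monomial v (1 : ℂ) * pderiv i g) * X z ^ (γ + c) := by
        have h1 : pderiv (e1 i) (X z ^ c * rename e1 g) =
            rename e1 (pderiv i g) * X z ^ c := by
          have h2 : (X z ^ c * rename e1 g : MvPolynomial ρ ℂ) =
              rename e1 g * rename (fun _ : Unit => z) (monomial (Finsupp.single () c) 1) := by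
            rw [← hXz]
            ring
          rw [h2, h.pderiv1, ← hXz]
        rw [h1, map_mul, pow_add]
        ring
      rw [hL, hR]
      by_cases hz : G (pderiv i (monomial v 1)) = 0
      · -- both sides vanish
        have hz' : G (monomial v 1 * pderiv i g) = 0 := by rw [← hG]; exact hz
        have h1 : h.G F (rename e1 (pderiv i (monomial v 1)) * X z ^ γ) = 0 := by
          by_cases hbe : b i ≤ e
          · rw [hval _ (e - b i) (hvh.pderiv (by omega)), hz, zero_mul, ite_self]
          · have : pderiv i (monomial v (1 : ℂ)) = 0 := by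
              ext w
              rw [coeff_pderiv, coeff_zero]
              by_contra h3
              have h4 := hvh (left_ne_zero_of_mul h3)
              rw [map_add] at h4
              have h5 : Finsupp.weight b (Finsupp.single i 1) = b i := by
                rw [Finsupp.weight_single]; simp
              omega
            rw [this, map_zero, zero_mul, map_zero]
        have h2 : h.G F (rename e1 (monomial v 1 * pderiv i g) * X z ^ (γ + c)) = 0 := by
          by_cases hbm : b i ≤ m
          · rw [hval _ (e + (m - b i)) (hvh.mul (hb.pderiv (by omega))), hz', zero_mul, ite_self]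
          · have : pderiv i g = 0 := by
              ext w
              rw [coeff_pderiv, coeff_zero]
              by_contra h3
              have h4 := hb (left_ne_zero_of_mul h3)
              rw [map_add] at h4
              have h5 : Finsupp.weight b (Finsupp.single i 1) = b i := by
                rw [Finsupp.weight_single]; simp
              omega
            rw [this, mul_zero, map_zero, zero_mul, map_zero]
        rw [h1, h2]
      · have hbe : b i ≤ e := by
          by_contra hbe
          apply hz
          have : pderiv i (monomial v (1 : ℂ)) = 0 := by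
            ext w
            rw [coeff_pderiv, coeff_zero]
            by_contra h3
            have h4 := hvh (left_ne_zero_of_mul h3)
            rw [map_add] at h4
            have h5 : Finsupp.weight b (Finsupp.single i 1) = b i := by
              rw [Finsupp.weight_single]; simp
            omega
          rw [this, map_zero]
        have hbm : b i ≤ m := by
          by_contra hbm
          apply hz
          have : pderiv i g = 0 := by
            ext w
            rw [coeff_pderiv, coeff_zero]
            by_contra h3
            have h4 := hb (left_ne_zero_of_mul h3)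
            rw [map_add] at h4
            have h5 : Finsupp.weight b (Finsupp.single i 1) = b i := by
              rw [Finsupp.weight_single]; simp
            omega
          rw [hG, this, mul_zero, map_zero]
        have e3 : e + (m - b i) = (e - b i) + m := by omega
        rw [hval _ (e - b i) (hvh.pderiv (by omega)), hval _ (e + (m - b i))
          (hvh.mul (hb.pderiv (by omega))), ← hG, e3]
        by_cases hd : m ∣ e - b i
        · rw [if_pos hd, if_pos ((Nat.dvd_add_self_right).2 hd), Nat.add_div_right _ (by omega)]
          congr 2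
          push_cast
          ring
        · rw [if_neg hd, if_neg (fun h' => hd ((Nat.dvd_add_self_right).1 h'))]
    · -- derivative in `z`
      have hdz : pderiv z (rename e1 (monomial v (1 : ℂ))) = 0 := h.pderiv2_zero () _
      have hdz' : pderiv z (rename e1 g) = 0 := h.pderiv2_zero () g
      have hL : pderiv z (rename e1 (monomial v (1 : ℂ)) * X z ^ γ) =
          (γ : ℂ) • (rename e1 (monomial v (1 : ℂ)) * X z ^ (γ - 1)) := by
        rw [Derivation.leibniz, hdz, smul_zero, add_zero, Derivation.leibniz_pow, pderiv_X_self,
          smul_eq_mul, smul_eq_mul, nsmul_eq_mul, mul_one, smul_eq_C_mul, map_natCast]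
        ring
      have hR : rename e1 (monomial v (1 : ℂ)) * X z ^ γ *
          pderiv z (X z ^ c * rename e1 g) =
          (c : ℂ) • (rename e1 (monomial v (1 : ℂ) * g) * X z ^ (γ + c - 1)) := by
        rw [Derivation.leibniz, hdz', Derivation.leibniz_pow, pderiv_X_self]
        simp only [smul_eq_mul, nsmul_eq_mul, mul_one, mul_zero, zero_add, smul_eq_C_mul,
          map_natCast, map_mul]
        have h1 : (X z ^ γ * ((c : MvPolynomial ρ ℂ) * X z ^ (c - 1))) =
            (c : MvPolynomial ρ ℂ) * X z ^ (γ + c - 1) := by
          have : γ + c - 1 = γ + (c - 1) := by omega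
          rw [this, pow_add]; ring
        calc _ = rename e1 (monomial v 1) * rename e1 g *
              (X z ^ γ * ((c : MvPolynomial ρ ℂ) * X z ^ (c - 1))) := by ring
          _ = _ := by rw [h1]; ring
      rw [hL, hR, map_smul, map_smul, hval _ e hvh,
        hval _ (e + m) (hvh.mul hb), G_mul_f0 hm hb hG hvh, smul_eq_mul, smul_eq_mul,
        ← hS]
      by_cases hd : m ∣ e
      · rw [if_pos hd, if_pos ((Nat.dvd_add_self_right).2 hd), Nat.add_div_right _ (by omega)]
        obtain ⟨k, hk⟩ := hd
        have hek : e / m = k := by rw [hk, Nat.mul_div_cancel_left _ (by omega)]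
        rw [hek]
        have hkC : (e : ℂ) / m = k := by rw [hk]; push_cast; field_simp
        rw [hkC]
        set x : ℤ := (γ : ℤ) - 1 - c * (k : ℤ) with hx
        have hxr := hWrec x
        have e2 : (γ : ℂ) * (G (monomial v 1) * W ((((γ - 1 : ℕ) : ℤ)) - c * (k : ℤ))) =
            (γ : ℂ) * (G (monomial v 1) * W x) := by
          rcases Nat.eq_zero_or_pos γ with h0 | h0
          · rw [h0]; simp
          · rw [hx]; push_cast [Nat.cast_sub h0]; rfl
        have e3 : ((((γ + c - 1 : ℕ) : ℤ)) - c * ((k.succ : ℕ) : ℤ)) = x := by
          rw [hx]; push_cast [Nat.cast_sub (show 1 ≤ γ + c by omega)]; ring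
        rw [e2, e3]
        have hxC : (x : ℂ) = (γ : ℂ) - 1 - c * k := by rw [hx]; push_cast; ring
        rw [hxC] at hxr
        linear_combination (G (monomial v 1)) * hxr - (G (monomial v 1) * W x) * hcS
      · rw [if_neg hd, if_neg (fun h' => hd ((Nat.dvd_add_self_right).1 h'))]
        simp
  · have e : (1 : MvPolynomial ρ ℂ) = rename e1 1 * X z ^ 0 := by
      rw [map_one, pow_zero, mul_one]
    rw [e, hval 1 0 (isWeightedHomogeneous_one ℂ b), if_pos (dvd_zero _)]
    simp [hW, hG1]

end Pool.Agent.helper67.LY
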