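import Mathlib
import Pool.Agent.helper67.IF.Arr3
import Pool.Agent.helper67.LY.Log

/-!
# Stokes functionals of products of linear forms in two variables
-/

set_option autoImplicit false

namespace Pool.Agent.helper67.LY

open MvPolynomial
open Pool.Agent.helper67.IF Pool.Agent.helper67.ND

lemma lin_smul_one {σ : Type} [Fintype σ] [DecidableEq σ] (c : ℂ) {f : MvPolynomial σ ℂ} {m : ℕ}
    (hf : f.IsHomogeneous m) : lin (c • (1 : Matrix σ σ ℂ)) f = C (c ^ m) * f := by
  have h0 : (fun i : σ => ∑ j, C ((c • (1 : Matrix σ σ ℂ)) i j) * X j : σ → MvPolynomial σ ℂ) =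
      fun i => C c * X i := by
    funext i
    rw [Finset.sum_eq_single i]
    · simp
    · intro j _ hj
      rw [Matrix.smul_apply, Matrix.one_apply_ne (Ne.symm hj)]
      simp
    · intro h; exact absurd (Finset.mem_univ i) h
  rw [lin, h0]
  have h1 : aeval (fun i : σ => (C c * X i : MvPolynomial σ ℂ)) f =
      ∑ v ∈ f.support, C (coeff v f) * ∏ i, (C c * X i) ^ v i := by
    rw [aeval_def, eval₂_eq']
    rfl
  rw [h1]
  conv_rhs => rw [f.as_sum]
  rw [Finset.mul_sum]
  refine Finset.sum_congr rfl fun v hv => ?_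
  have h2 : ∑ i, v i = m := by
    have h3 := hf (mem_support_iff.1 hv)
    rw [← h3, Finsupp.weight_apply, Finsupp.sum_fintype _ _ (fun i => by simp)]
    exact Finset.sum_congr rfl fun i _ => by simp
  rw [monomial_eq, Finsupp.prod_fintype _ _ (fun i => by simp)]
  simp only [mul_pow, Finset.prod_mul_distrib]
  rw [Finset.prod_pow_eq_pow_sum, h2, map_pow]
  ring

/-- Multiplication by a constant. -/
theorem _root_.Pool.Agent.helper67.IF.HasStokes.const_mul {σ : Type} [Fintype σ] [DecidableEq σ]
    {f0 : MvPolynomial σ ℂ} (hf : HasStokes f0) {m : ℕ} (hm : 1 ≤ m) (hh : f0.IsHomogeneous m)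
    {c : ℂ} (hc : c ≠ 0) : HasStokes (C c * f0) := by
  obtain ⟨x, hx⟩ := IsAlgClosed.exists_pow_nat_eq c (by omega : 0 < m)
  have hx0 : x ≠ 0 := by
    rintro rfl
    rw [zero_pow (by omega)] at hx
    exact hc hx.symm
  have h := hf.lin (x • 1) (x⁻¹ • 1) (by
    rw [Matrix.smul_mul, Matrix.one_mul, smul_smul, mul_inv_cancel₀ hx0, one_smul]) (by
    rw [Matrix.smul_mul, Matrix.one_mul, smul_smul, inv_mul_cancel₀ hx0, one_smul])
  rwa [lin_smul_one x hh, hx] at h

lemma span_pair_top {v w : Fin 2 → ℂ} (h : LinearIndependent ℂ ![v, w]) :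
    Submodule.span ℂ ({v, w} : Set (Fin 2 → ℂ)) = ⊤ := by
  have h1 := h.span_eq_top_of_card_eq_finrank' (by simp)
  rwa [Matrix.range_cons, Matrix.range_cons, Matrix.range_empty, Set.union_empty,
    Set.singleton_union] at h1

/-- **Products of pairwise independent linear forms in two variables.** -/
theorem hasStokes_two {ι : Type} [Fintype ι] (l : ι → Fin 2 → ℂ) (hcard : 2 ≤ Fintype.card ι)
    (hind : ∀ i j, i ≠ j → LinearIndependent ℂ ![l i, l j]) :
    HasStokes (∏ i, (∑ j, C (l i j) * X j) : MvPolynomial (Fin 2) ℂ) := by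
  classical
  rcases Nat.lt_or_ge 2 (Fintype.card ι) with h3 | h3
  · -- at least three forms
    have hne : ∀ i, l i ≠ 0 := by
      intro i
      have hex : ∃ j, j ≠ i := by
        by_contra h
        push Not at h
        have : Fintype.card ι ≤ 1 := by
          rw [Fintype.card_le_one_iff]
          intro a b
          rw [h a, h b]
        omega
      obtain ⟨j, hj⟩ := hex
      exact (hind i j (Ne.symm hj)).ne_zero 0
    have hpair : ∀ s : Set ι, (∃ i ∈ s, ∃ j ∈ s, i ≠ j) → Submodule.span ℂ (l '' s) = ⊤ := by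
      rintro s ⟨i, hi, j, hj, hij⟩
      rw [eq_top_iff, ← span_pair_top (hind i j hij)]
      refine Submodule.span_mono ?_
      rintro x (rfl | rfl)
      · exact ⟨i, hi, rfl⟩
      · exact ⟨j, hj, rfl⟩
    obtain ⟨i0, j0, hij0⟩ : ∃ i j : ι, i ≠ j := by
      have : 1 < Fintype.card ι := by omega
      exact Fintype.exists_pair_of_one_lt_card this
    have h := hasStokes_arr (by norm_num : 1 ≤ 2) l hne (fun _ => 1) (fun _ => le_rfl) ?_ ?_ ?_ ?_
    · rw [arrP] at h
      simpa using h
    · rw [← Set.image_univ]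
      exact hpair _ ⟨i0, trivial, j0, trivial, hij0⟩
    · intro s hs hs' hdis
      obtain ⟨a, ha⟩ := hs
      obtain ⟨b, hb⟩ := hs'
      by_cases h1 : ∃ i ∈ s, ∃ j ∈ s, i ≠ j
      · rw [hpair s h1, top_disjoint] at hdis
        have h2 : l b ∈ Submodule.span ℂ (l '' sᶜ) := Submodule.subset_span ⟨b, hb, rfl⟩
        rw [hdis, Submodule.mem_bot] at h2
        exact hne b h2
      · by_cases h2 : ∃ i ∈ sᶜ, ∃ j ∈ sᶜ, i ≠ j
        · rw [hpair _ h2, disjoint_top] at hdis
          have h2 : l a ∈ Submodule.span ℂ (l '' s) := Submodule.subset_span ⟨a, ha, rfl⟩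
          rw [hdis, Submodule.mem_bot] at h2
          exact hne a h2
        · push Not at h1 h2
          have h4 : Fintype.card ι ≤ 2 := by
            have h5 : (Finset.univ : Finset ι) ⊆ {a, b} := by
              intro x _
              by_cases hx : x ∈ s
              · rw [h1 x hx a ha]; simp
              · rw [h2 x hx b hb]; simp
            calc Fintype.card ι = (Finset.univ : Finset ι).card := rfl
              _ ≤ ({a, b} : Finset ι).card := Finset.card_le_card h5
              _ ≤ 2 := Finset.card_le_two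
          omega
    · simp; omega
    · intro W hW hex hdvd
      obtain ⟨i, hi⟩ := hex
      have h1 : ∑ j, (if l j ∈ W then (fun _ : ι => 1) j else 0) = 1 := by
        rw [Finset.sum_eq_single i]
        · rw [if_pos hi]
        · intro j _ hj
          rw [if_neg]
          intro hj'
          apply hW
          rw [eq_top_iff, ← span_pair_top (hind i j (Ne.symm hj)), Submodule.span_le]
          rintro x (rfl | rfl)
          · exact hi
          · exact hj'
        · intro h; exact absurd (Finset.mem_univ i) h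
      rw [h1] at hdvd
      simp only [Finset.sum_const, smul_eq_mul, mul_one, Finset.card_univ] at hdvd
      have := Nat.le_of_dvd (by norm_num) hdvd
      omega
  · -- two forms
    have h2 : Fintype.card ι = 2 := by omega
    obtain ⟨e⟩ : Nonempty (ι ≃ Fin 2) := ⟨Fintype.equivFinOfCardEq h2⟩
    set B : Matrix (Fin 2) (Fin 2) ℂ := Matrix.of ![l (e.symm 0), l (e.symm 1)] with hB
    have hBu : IsUnit B := by
      rw [← Matrix.linearIndependent_rows_iff_isUnit]
      exact hind _ _ (fun h => by simpa using h)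
    have h := hasStokes_xy.lin B B⁻¹ (Matrix.mul_nonsing_inv _ ((Matrix.isUnit_iff_isUnit_det _).1 hBu))
      (Matrix.nonsing_inv_mul _ ((Matrix.isUnit_iff_isUnit_det _).1 hBu))
    rw [map_mul, lin_X, lin_X] at h
    rw [← e.symm.prod_comp, Fin.prod_univ_two]
    exact h

end Pool.Agent.helper67.LY
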