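import Mathlib
import Pool.Agent.helper67.IF.Fam
import Pool.Agent.helper67.LY.Two

/-!
# Initial forms of Lê-Yomdin germs at a point of the tangent cone
-/

set_option autoImplicit false

namespace Pool.Agent.helper67.LY

open MvPolynomial Filter Topology Asymptotics
open Pool.Agent.helper67.IF Pool.Agent.helper67.ND

lemma norm_scal_le' {n : ℕ} {a : Fin n → ℕ} {β : ℕ} (ha : ∀ i, β ≤ a i) {t : ℂ} (ht : ‖t‖ ≤ 1)
    (z : Fin n → ℂ) : ‖scal a t z‖ ≤ ‖t‖ ^ β * ‖z‖ := by
  rw [pi_norm_le_iff_of_nonneg (mul_nonneg (pow_nonneg (norm_nonneg _) _) (norm_nonneg _))]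
  intro i
  simp only [scal, norm_mul, norm_pow]
  exact mul_le_mul (pow_le_pow_of_le_one (norm_nonneg _) ht (ha i)) (norm_le_pi_norm z i)
    (norm_nonneg _) (pow_nonneg (norm_nonneg _) _)

lemma isBigO_scal_min {n : ℕ} {a : Fin n → ℕ} {β : ℕ} (hβ : 1 ≤ β) (ha : ∀ i, β ≤ a i)
    {g : (Fin n → ℂ) → ℂ} {K : ℕ} (h : g =O[𝓝 0] (fun z : Fin n → ℂ => ‖z‖ ^ K))
    (z : Fin n → ℂ) :
    (fun t : ℂ => g (scal a t z)) =O[𝓝 0] (fun t : ℂ => ‖t‖ ^ (β * K)) := by
  have h1 : (fun t : ℂ => g (scal a t z)) =O[𝓝 0] (fun t : ℂ => ‖scal a t z‖ ^ K) :=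
    h.comp_tendsto (tendsto_scal (fun i => hβ.trans (ha i)) z)
  refine h1.trans (IsBigO.of_bound (‖z‖ ^ K) ?_)
  filter_upwards [Metric.ball_mem_nhds (0 : ℂ) one_pos] with t ht
  have ht' : ‖t‖ ≤ 1 := by simpa using (mem_ball_zero_iff.1 ht).le
  rw [norm_pow, norm_pow, norm_norm, norm_norm, pow_mul, ← mul_pow, mul_comm ‖z‖]
  exact pow_le_pow_left₀ (norm_nonneg _) (norm_scal_le' ha ht' z) K

lemma pow_mul_sub_isBigO (N : ℕ) {φ : ℂ → ℂ} (hφ : DifferentiableAt ℂ φ 0) :
    (fun t : ℂ => t ^ N * (φ t - φ 0)) =O[𝓝 0] (fun t : ℂ => ‖t‖ ^ (N + 1)) := by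
  have h1 : (fun t => φ t - φ 0) =O[𝓝 0] (fun t : ℂ => t - 0) := hφ.isBigO_sub
  have h2 : (fun t : ℂ => t ^ N) =O[𝓝 0] (fun t : ℂ => ‖t‖ ^ N) := by
    refine IsBigO.of_bound 1 (Eventually.of_forall fun t => ?_)
    simp
  have h3 : (fun t : ℂ => t - 0) =O[𝓝 0] (fun t : ℂ => ‖t‖) := by
    refine IsBigO.of_bound 1 (Eventually.of_forall fun t => ?_)
    simp
  simpa [pow_succ] using h2.mul (h1.trans h3)

lemma isBigO_pow_mono {N N' : ℕ} (h : N' ≤ N) :
    (fun t : ℂ => ‖t‖ ^ N) =O[𝓝 0] (fun t : ℂ => ‖t‖ ^ N') := by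
  refine IsBigO.of_bound 1 ?_
  filter_upwards [Metric.ball_mem_nhds (0 : ℂ) one_pos] with t ht
  have ht' : ‖t‖ ≤ 1 := by simpa using (mem_ball_zero_iff.1 ht).le
  rw [one_mul, norm_pow, norm_pow, norm_norm]
  exact pow_le_pow_of_le_one (norm_nonneg _) ht' h

variable {d : ℕ}

/-- The product of the forms of `S` (which do not involve the last variable) and of the last
coefficients of the others. -/
noncomputable def F0 (B : Fin d → Fin 3 → ℂ) (S : Finset (Fin d)) : MvPolynomial (Fin 3) ℂ :=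
  C (∏ l ∈ Sᶜ, B l 2) * ∏ l ∈ S, (C (B l 0) * X 0 + C (B l 1) * X 1)

lemma eval_F0 (B : Fin d → Fin 3 → ℂ) (S : Finset (Fin d)) (z : Fin 3 → ℂ) :
    eval z (F0 B S) = (∏ l ∈ Sᶜ, B l 2) * ∏ l ∈ S, (B l 0 * z 0 + B l 1 * z 1) := by
  simp [F0]

lemma F0_homog (B : Fin d → Fin 3 → ℂ) (S : Finset (Fin d)) (α β : ℕ) :
    (F0 B S).IsWeightedHomogeneous ![α, α, β] (α * S.card) := by
  have h1 : ∀ l ∈ S, (C (B l 0) * X 0 + C (B l 1) * X 1 : MvPolynomial (Fin 3) ℂ
      ).IsWeightedHomogeneous ![α, α, β] α := by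
    intro l _
    have h0 : (C (B l 0) * X 0 : MvPolynomial (Fin 3) ℂ).IsWeightedHomogeneous ![α, α, β] α := by
      have := (isWeightedHomogeneous_C ![α, α, β] (B l 0)).mul
        (isWeightedHomogeneous_X ℂ ![α, α, β] (0 : Fin 3))
      simpa using this
    have h2 : (C (B l 1) * X 1 : MvPolynomial (Fin 3) ℂ).IsWeightedHomogeneous ![α, α, β] α := by
      have := (isWeightedHomogeneous_C ![α, α, β] (B l 1)).mul
        (isWeightedHomogeneous_X ℂ ![α, α, β] (1 : Fin 3))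
      simpa using this
    exact h0.add h2
  have h2 := IsWeightedHomogeneous.prod S _ _ h1
  rw [Finset.sum_const, smul_eq_mul, mul_comm] at h2
  have h3 := (isWeightedHomogeneous_C ![α, α, β] (∏ l ∈ Sᶜ, B l 2)).mul h2
  rw [zero_add] at h3
  exact h3

/-- The two variable form. -/
noncomputable def G2 (B : Fin d → Fin 3 → ℂ) (S : Finset (Fin d)) : MvPolynomial (Fin 2) ℂ :=
  C (∏ l ∈ Sᶜ, B l 2) * ∏ l : S, (∑ j : Fin 2, C (B l j.castSucc) * X j)

lemma rename_G2 (B : Fin d → Fin 3 → ℂ) (S : Finset (Fin d)) :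
    rename Fin.castSucc (G2 B S) = F0 B S := by
  have h1 : rename Fin.castSucc (∏ l : S, (∑ j : Fin 2, C (B l j.castSucc) * X j) :
      MvPolynomial (Fin 2) ℂ) =
      ∏ l ∈ S, (C (B l 0) * X 0 + C (B l 1) * X 1 : MvPolynomial (Fin 3) ℂ) := by
    rw [map_prod, ← Finset.prod_coe_sort S
      (fun l => (C (B l 0) * X 0 + C (B l 1) * X 1 : MvPolynomial (Fin 3) ℂ))]
    refine Finset.prod_congr rfl fun l _ => ?_
    rw [Fin.sum_univ_two, map_add, map_mul, map_mul, rename_C, rename_C, rename_X, rename_X]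
    rfl
  rw [G2, F0, map_mul, rename_C, h1]

lemma hasStokes_G2 (B : Fin d → Fin 3 → ℂ) (S : Finset (Fin d)) (hcard : 2 ≤ S.card)
    (hS : ∀ l, l ∈ S ↔ B l 2 = 0)
    (hind : ∀ l ∈ S, ∀ l' ∈ S, l ≠ l' → LinearIndependent ℂ ![B l, B l']) :
    HasStokes (G2 B S) ∧ (G2 B S).IsHomogeneous S.card := by
  have hhom : (∏ l : S, (∑ j : Fin 2, C (B l j.castSucc) * X j) : MvPolynomial (Fin 2) ℂ
      ).IsHomogeneous S.card := by
    have h1 := arrP_homog (fun (l : S) (j : Fin 2) => B l j.castSucc) (fun _ => 1)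
    rw [arrP] at h1
    simpa using h1
  have hst : HasStokes (∏ l : S, (∑ j : Fin 2, C (B l j.castSucc) * X j) :
      MvPolynomial (Fin 2) ℂ) := by
    refine hasStokes_two (fun (l : S) (j : Fin 2) => B l j.castSucc) (by simpa using hcard) ?_
    intro i j hij
    have h1 := hind i i.2 j j.2 (fun h => hij (Subtype.ext h))
    rw [LinearIndependent.pair_iff] at h1 ⊢
    intro s t hst
    refine h1 s t ?_
    funext x
    refine Fin.lastCases ?_ (fun x => ?_) x
    · have hi := (hS i).1 i.2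
      have hj := (hS j).1 j.2
      have e : (Fin.last 2 : Fin 3) = 2 := rfl
      simp [e, hi, hj]
    · exact congrFun hst x
  have hne : (∏ l ∈ Sᶜ, B l 2) ≠ 0 := by
    rw [Finset.prod_ne_zero_iff]
    intro l hl
    rw [Finset.mem_compl, hS] at hl
    exact hl
  refine ⟨hst.const_mul (by omega) hhom hne, ?_⟩
  have h2 := (isHomogeneous_C (Fin 2) (∏ l ∈ Sᶜ, B l 2)).mul hhom
  rw [zero_add] at h2
  exact h2

/-- The initial form of the product. -/
lemma prod_init (B : Fin d → Fin 3 → ℂ) (S : Finset (Fin d)) (hS : ∀ l, l ∈ S ↔ B l 2 = 0)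
    {α β : ℕ} (hαβ : β < α) (z : Fin 3 → ℂ) :
    (fun t : ℂ => ∏ l, (∑ j, B l j * scal ![α, α, β] t z j) -
      t ^ (α * S.card + β * (d - S.card)) * (z 2 ^ (d - S.card) * eval z (F0 B S))) =O[𝓝 0]
      (fun t : ℂ => ‖t‖ ^ (α * S.card + β * (d - S.card) + 1)) := by
  set m := S.card with hm
  have hcompl : Sᶜ.card = d - m := by rw [Finset.card_compl, Fintype.card_fin]
  set φ : ℂ → ℂ := fun t => ∏ l ∈ Sᶜ, (B l 2 * z 2 + t ^ (α - β) * (B l 0 * z 0 + B l 1 * z 1))
    with hφ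
  have hd : DifferentiableAt ℂ φ 0 := by
    rw [hφ]
    fun_prop
  have h1 := (pow_mul_sub_isBigO (α * m + β * (d - m)) hd).const_mul_left
    (∏ l ∈ S, (B l 0 * z 0 + B l 1 * z 1))
  refine h1.congr_left fun t => ?_
  have e1 : ∏ l, (∑ j, B l j * scal ![α, α, β] t z j) =
      (∏ l ∈ S, (t ^ α * (B l 0 * z 0 + B l 1 * z 1))) * ∏ l ∈ Sᶜ, (t ^ β *
        (B l 2 * z 2 + t ^ (α - β) * (B l 0 * z 0 + B l 1 * z 1))) := by
    rw [← Finset.prod_mul_prod_compl S]
    congr 1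
    · refine Finset.prod_congr rfl fun l hl => ?_
      have hl2 := (hS l).1 hl
      rw [Fin.sum_univ_three, hl2]
      simp only [scal, Matrix.cons_val_zero, Matrix.cons_val_one]
      ring
    · refine Finset.prod_congr rfl fun l _ => ?_
      rw [Fin.sum_univ_three]
      have e2 : t ^ α = t ^ β * t ^ (α - β) := by rw [← pow_add]; congr 1; omega
      simp only [scal, Matrix.cons_val_zero, Matrix.cons_val_one, Matrix.cons_val_two,
        Matrix.tail_cons, Matrix.head_cons]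
      rw [e2]
      ring
  have e3 : φ 0 = z 2 ^ (d - m) * ∏ l ∈ Sᶜ, B l 2 := by
    change ∏ l ∈ Sᶜ, (B l 2 * z 2 + (0 : ℂ) ^ (α - β) * (B l 0 * z 0 + B l 1 * z 1)) = _
    rw [zero_pow (by omega)]
    simp only [zero_mul, add_zero]
    rw [Finset.prod_mul_distrib, Finset.prod_const, hcompl, mul_comm]
  rw [e1, Finset.prod_mul_distrib, Finset.prod_mul_distrib, Finset.prod_const, Finset.prod_const,
    hcompl, ← hm, eval_F0, e3]
  rw [← pow_mul, ← pow_mul, pow_add]
  ring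

/-- The initial form of the second form. -/
lemma form_init {g : MvPolynomial (Fin 3) ℂ} {D : ℕ} (hg : g.IsHomogeneous D)
    {α β : ℕ} (hαβ : β < α) (z : Fin 3 → ℂ) :
    (fun t : ℂ => eval (scal ![α, α, β] t z) g -
      t ^ (β * D) * (eval ![0, 0, 1] g * z 2 ^ D)) =O[𝓝 0]
      (fun t : ℂ => ‖t‖ ^ (β * D + 1)) := by
  set φ : ℂ → ℂ := fun t => eval ![t ^ (α - β) * z 0, t ^ (α - β) * z 1, z 2] g with hφ
  have hd : DifferentiableAt ℂ φ 0 := by
    have h1 : DifferentiableAt ℂ (fun y : Fin 3 → ℂ => eval y g)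
        ![(0 : ℂ) ^ (α - β) * z 0, (0 : ℂ) ^ (α - β) * z 1, z 2] :=
      (analyticAt_eval g _).differentiableAt
    have h2 : DifferentiableAt ℂ (fun t : ℂ =>
        (![t ^ (α - β) * z 0, t ^ (α - β) * z 1, z 2] : Fin 3 → ℂ)) 0 := by
      rw [differentiableAt_pi]
      intro i
      fin_cases i
      · change DifferentiableAt ℂ (fun t : ℂ => t ^ (α - β) * z 0) 0
        fun_prop
      · change DifferentiableAt ℂ (fun t : ℂ => t ^ (α - β) * z 1) 0
        fun_prop
      · change DifferentiableAt ℂ (fun _ : ℂ => z 2) 0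
        fun_prop
    exact DifferentiableAt.comp (𝕜 := ℂ) (g := fun y : Fin 3 → ℂ => eval y g)
      (f := fun t : ℂ => (![t ^ (α - β) * z 0, t ^ (α - β) * z 1, z 2] : Fin 3 → ℂ)) 0 h1 h2
  refine (pow_mul_sub_isBigO (β * D) hd).congr_left fun t => ?_
  have hg' : g.IsWeightedHomogeneous (fun _ => 1) D := hg
  have e1 : eval (scal ![α, α, β] t z) g = t ^ (β * D) * φ t := by
    have h1 : scal ![α, α, β] t z = scal (fun _ => 1) (t ^ β)
        ![t ^ (α - β) * z 0, t ^ (α - β) * z 1, z 2] := by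
      have e2 : t ^ α = t ^ β * t ^ (α - β) := by rw [← pow_add]; congr 1; omega
      funext i
      fin_cases i
      · simp [scal, e2, mul_assoc]
      · simp [scal, e2, mul_assoc]
      · simp [scal]
    rw [h1, eval_scal_homog hg', ← pow_mul]
  have e2 : φ 0 = eval ![0, 0, 1] g * z 2 ^ D := by
    have h1 : (![(0 : ℂ) ^ (α - β) * z 0, (0 : ℂ) ^ (α - β) * z 1, z 2] : Fin 3 → ℂ) =
        scal (fun _ => 1) (z 2) ![0, 0, 1] := by
      rw [zero_pow (by omega)]
      funext i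
      fin_cases i <;> simp [scal]
    simp only [hφ]
    rw [h1, eval_scal_homog hg', mul_comm]
  rw [e1, e2]
  ring

lemma split_castSucc : Split (Fin.castSucc : Fin 2 → Fin 3) (fun _ : Unit => (2 : Fin 3)) := by
  refine ⟨Fin.castSucc_injective 2, fun _ _ _ => rfl, ?_, ?_⟩
  · intro i _ h
    exact absurd h (Fin.castSucc_lt_last i).ne
  · intro r
    refine Fin.lastCases (Or.inr ⟨(), rfl⟩) (fun i => Or.inl ⟨i, rfl⟩) r

/-- **The root of a multiple point of the tangent cone.** -/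
theorem root_point {k : ℕ} (hk : 1 ≤ k) (B : Fin d → Fin 3 → ℂ) (S : Finset (Fin d))
    (hcard : 2 ≤ S.card) (hS : ∀ l, l ∈ S ↔ B l 2 = 0)
    (hind : ∀ l ∈ S, ∀ l' ∈ S, l ≠ l' → LinearIndependent ℂ ![B l, B l'])
    {g : MvPolynomial (Fin 3) ℂ} (hg : g.IsHomogeneous (d + k)) (hgp : eval ![0, 0, 1] g ≠ 0)
    {f : (Fin 3 → ℂ) → ℂ} (hf : AnalyticAt ℂ f 0)
    (hO : (fun z => f z - (∏ l, (∑ j, B l j * z j) + eval z g)) =O[𝓝 0]
      (fun z : Fin 3 → ℂ => ‖z‖ ^ (d + k + 1)))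
    {b : Polynomial ℂ} (hb : BFam f b) :
    b.eval (-(2 * k + 3 * S.card : ℕ) / ((d + k) * S.card : ℕ) : ℂ) = 0 := by
  set m := S.card with hm
  have hmd : m ≤ d := by
    have := Finset.card_le_univ S
    rwa [Fintype.card_fin] at this
  obtain ⟨hst, hhom⟩ := hasStokes_G2 B S hcard hS hind
  have hhom' : (G2 B S).IsWeightedHomogeneous (fun _ => 1) m := hhom
  have hst2 := HasStokes.susp split_castSucc hst (by omega : 1 ≤ m) hhom' (d - m) (m + k)
    (by omega) (by omega) (eval ![0, 0, 1] g) hgp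
  rw [rename_G2] at hst2
  have hN : (m + k) * m + m * (d - m) = (d + k) * m := by
    zify [hmd]; ring
  have hhomF : (X 2 ^ (d - m) * (F0 B S + C (eval ![0, 0, 1] g) * X 2 ^ (m + k)) :
      MvPolynomial (Fin 3) ℂ).IsWeightedHomogeneous ![m + k, m + k, m] ((d + k) * m) := by
    have h1 : (X 2 : MvPolynomial (Fin 3) ℂ).IsWeightedHomogeneous ![m + k, m + k, m] m := by
      have := isWeightedHomogeneous_X ℂ ![m + k, m + k, m] (2 : Fin 3)
      simpa using this
    have h2 : (C (eval ![0, 0, 1] g) * X 2 ^ (m + k) :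
        MvPolynomial (Fin 3) ℂ).IsWeightedHomogeneous ![m + k, m + k, m] ((m + k) * m) := by
      have := (isWeightedHomogeneous_C ![m + k, m + k, m] (eval ![0, 0, 1] g)).mul
        (h1.pow (m + k))
      simpa using this
    have h3 := (h1.pow (d - m)).mul ((F0_homog B S (m + k) m).add h2)
    have e : (d - m) • m + (m + k) * S.card = (d + k) * m := by
      rw [← hN, ← hm, smul_eq_mul]; ring
    rw [e] at h3
    exact h3
  have hin : HasInitialForm ![m + k, m + k, m] ((d + k) * m) f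
      (X 2 ^ (d - m) * (F0 B S + C (eval ![0, 0, 1] g) * X 2 ^ (m + k))) := by
    intro z
    have h1 := prod_init B S hS (show m < m + k by omega) z
    have h2 := form_init hg (show m < m + k by omega) z
    have h3 := isBigO_scal_min (a := ![m + k, m + k, m]) (β := m) (by omega) (by
      intro i
      fin_cases i <;> simp) hO z
    rw [← hm, hN] at h1
    rw [mul_comm m (d + k)] at h2
    have h3' := h3.trans (isBigO_pow_mono (show (d + k) * m + 1 ≤ m * (d + k + 1) by nlinarith))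
    refine ((h1.add h2).add h3').congr_left fun t => ?_
    have e1 : (fun i => t ^ (![m + k, m + k, m] : Fin 3 → ℕ) i * z i) =
        scal ![m + k, m + k, m] t z := rfl
    rw [e1]
    simp only [map_mul, map_pow, eval_X, map_add, eval_C]
    have e2 : z 2 ^ (d + k) = z 2 ^ (d - m) * z 2 ^ (m + k) := by
      rw [← pow_add]; congr 1; omega
    rw [e2]
    ring
  have h := initial_form_fam (by norm_num) (a := ![m + k, m + k, m]) (by
    intro i
    fin_cases i <;> simp <;> omega) hf hhomF hin hst2 hb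
  rw [Fin.sum_univ_three] at h
  have e : (-((2 * k + 3 * m : ℕ) : ℂ) / ((d + k) * m : ℕ) : ℂ) =
      -(((![m + k, m + k, m] : Fin 3 → ℕ) 0 : ℂ) + ((![m + k, m + k, m] : Fin 3 → ℕ) 1 : ℂ) +
        ((![m + k, m + k, m] : Fin 3 → ℕ) 2 : ℂ)) / (((d + k) * m : ℕ) : ℂ) := by
    congr 2
    simp
    ring
  rw [e]
  exact h

/-- **The root `-3/d`, with a point of multiplicity `2 d / 3`.** -/
theorem root_log (B : Fin d → Fin 3 → ℂ) (S : Finset (Fin d))
    (hcard : 2 ≤ S.card) (hS : ∀ l, l ∈ S ↔ B l 2 = 0)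
    (hind : ∀ l ∈ S, ∀ l' ∈ S, l ≠ l' → LinearIndependent ℂ ![B l, B l'])
    (h23 : 3 * S.card = 2 * d)
    {f : (Fin 3 → ℂ) → ℂ} (hf : AnalyticAt ℂ f 0)
    (hO : (fun z => f z - ∏ l, (∑ j, B l j * z j)) =O[𝓝 0]
      (fun z : Fin 3 → ℂ => ‖z‖ ^ (d + 1)))
    {b : Polynomial ℂ} (hb : BFam f b) :
    b.eval (-3 / (d : ℂ)) = 0 := by
  set m := S.card with hm
  have hmd : m ≤ d := by
    have := Finset.card_le_univ S
    rwa [Fintype.card_fin] at this
  obtain ⟨hst, hhom⟩ := hasStokes_G2 B S hcard hS hind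
  have hhom' : (G2 B S).IsWeightedHomogeneous (fun _ => 1) m := hhom
  have hst2 := HasStokes.log split_castSucc hst (by omega : 1 ≤ m) hhom' (d - m)
    (by simp; omega)
  rw [rename_G2] at hst2
  set p := m + 1 with hp
  have hN : (p + 1) * m + p * (d - m) = d * p + m := by
    zify [hmd]; ring
  have hhomF : (X 2 ^ (d - m) * F0 B S :
      MvPolynomial (Fin 3) ℂ).IsWeightedHomogeneous ![p + 1, p + 1, p] (d * p + m) := by
    have h1 : (X 2 : MvPolynomial (Fin 3) ℂ).IsWeightedHomogeneous ![p + 1, p + 1, p] p := by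
      have := isWeightedHomogeneous_X ℂ ![p + 1, p + 1, p] (2 : Fin 3)
      simpa using this
    have h3 := (h1.pow (d - m)).mul (F0_homog B S (p + 1) p)
    have e : (d - m) • p + (p + 1) * S.card = d * p + m := by
      rw [← hN, ← hm, smul_eq_mul]; ring
    rw [e] at h3
    exact h3
  have hin : HasInitialForm ![p + 1, p + 1, p] (d * p + m) f (X 2 ^ (d - m) * F0 B S) := by
    intro z
    have h1 := prod_init B S hS (show p < p + 1 by omega) z
    have h3 := isBigO_scal_min (a := ![p + 1, p + 1, p]) (β := p) (by omega) (by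
      intro i
      fin_cases i <;> simp) hO z
    rw [← hm, hN] at h1
    have h3' := h3.trans (isBigO_pow_mono (show d * p + m + 1 ≤ p * (d + 1) by
      rw [hp]; nlinarith))
    refine (h1.add h3').congr_left fun t => ?_
    have e1 : (fun i => t ^ (![p + 1, p + 1, p] : Fin 3 → ℕ) i * z i) =
        scal ![p + 1, p + 1, p] t z := rfl
    rw [e1]
    simp only [map_mul, map_pow, eval_X]
    ring
  have h := initial_form_fam (by norm_num) (a := ![p + 1, p + 1, p]) (by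
    intro i
    fin_cases i <;> simp; omega) hf hhomF hin hst2 hb
  rw [Fin.sum_univ_three] at h
  have hd0 : (d : ℂ) ≠ 0 := by
    have : d ≠ 0 := by omega
    exact_mod_cast this
  have hNC : ((d * p + m : ℕ) : ℂ) ≠ 0 := by
    have : d * p + m ≠ 0 := by omega
    exact_mod_cast this
  have e : (-3 / (d : ℂ)) =
      -(((![p + 1, p + 1, p] : Fin 3 → ℕ) 0 : ℂ) + ((![p + 1, p + 1, p] : Fin 3 → ℕ) 1 : ℂ) +
        ((![p + 1, p + 1, p] : Fin 3 → ℕ) 2 : ℂ)) / ((d * p + m : ℕ) : ℂ) := by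
    rw [div_eq_div_iff hd0 hNC]
    have h23' : (3 : ℂ) * m = 2 * d := by exact_mod_cast h23
    simp only [Matrix.cons_val_zero, Matrix.cons_val_one, Matrix.cons_val_two,
      Matrix.tail_cons, Matrix.head_cons]
    push_cast
    linear_combination (-1 : ℂ) * h23'
  rw [e]
  exact h

end Pool.Agent.helper67.LY
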