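import Mathlib
import Pool.Agent.helper67.LY.Init

/-!
# Roots at the multiple points of the tangent cone, in arbitrary coordinates
-/

set_option autoImplicit false

namespace Pool.Agent.helper67.LY

open MvPolynomial Filter Topology Asymptotics
open Pool.Agent.helper67.IF Pool.Agent.helper67.ND

variable {d : ℕ}

lemma eval_lin {n : ℕ} (B : Matrix (Fin n) (Fin n) ℂ) (g : MvPolynomial (Fin n) ℂ)
    (z : Fin n → ℂ) : eval z (lin B g) = eval (B.mulVec z) g := by
  induction g using MvPolynomial.induction_on with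
  | C a => rw [lin, aeval_C]; simp
  | add p q hp hq => simp only [map_add, hp, hq]
  | mul_X p i hp =>
    rw [map_mul, map_mul, hp, lin_X, map_mul, eval_X]
    congr 1
    simp [Matrix.mulVec, dotProduct]

/-- Adapted coordinates at the intersection of two lines. -/
lemma exists_coord {A : Fin d → Fin 3 → ℂ}
    {i j : Fin d} (hij : LinearIndependent ℂ ![A i, A j]) :
    ∃ M M' : Matrix (Fin 3) (Fin 3) ℂ, M * M' = 1 ∧ M' * M = 1 ∧ M 0 = A i ∧ M 1 = A j := by
  have h1 : Submodule.span ℂ (Set.range ![A i, A j]) ≠ ⊤ := by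
    intro h
    have h2 := finrank_range_le_card (R := ℂ) ![A i, A j]
    rw [Set.finrank, h, finrank_top, Module.finrank_fin_fun] at h2
    simp at h2
  obtain ⟨v, hv⟩ : ∃ v, v ∉ Submodule.span ℂ (Set.range ![A i, A j]) := by
    by_contra hcon
    push Not at hcon
    exact h1 (eq_top_iff.2 fun x _ => hcon x)
  have h2 : LinearIndependent ℂ (Fin.cons v ![A i, A j] : Fin 3 → Fin 3 → ℂ) :=
    linearIndependent_finCons.2 ⟨hij, hv⟩
  have h3 : LinearIndependent ℂ ((Fin.cons v ![A i, A j] : Fin 3 → Fin 3 → ℂ) ∘ ![1, 2, 0]) := by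
    refine h2.comp _ ?_
    intro a b h
    fin_cases a <;> fin_cases b <;> simp_all
  set M : Matrix (Fin 3) (Fin 3) ℂ :=
    Matrix.of ((Fin.cons v ![A i, A j] : Fin 3 → Fin 3 → ℂ) ∘ ![1, 2, 0]) with hM
  have hMu : IsUnit M := by
    rw [← Matrix.linearIndependent_rows_iff_isUnit]
    exact h3
  have hdet := (Matrix.isUnit_iff_isUnit_det _).1 hMu
  exact ⟨M, M⁻¹, Matrix.mul_nonsing_inv _ hdet, Matrix.nonsing_inv_mul _ hdet, rfl, rfl⟩

/-- The data in the new coordinates. -/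
lemma lin_data (A : Fin d → Fin 3 → ℂ)
    (hA : ∀ i j, i ≠ j → LinearIndependent ℂ ![A i, A j]) {i j : Fin d} (hij : i ≠ j)
    (S : Finset (Fin d)) (hS : ∀ l, l ∈ S ↔ A l ∈ Submodule.span ℂ {A i, A j})
    {f : (Fin 3 → ℂ) → ℂ} (hf : AnalyticAt ℂ f 0) {b : Polynomial ℂ} (hb : BFam f b) :
    ∃ (B : Fin d → Fin 3 → ℂ) (L : (Fin 3 → ℂ) ≃L[ℂ] (Fin 3 → ℂ)) (M' : Matrix (Fin 3) (Fin 3) ℂ),
      2 ≤ S.card ∧ (∀ l, l ∈ S ↔ B l 2 = 0) ∧
      (∀ l l', l ≠ l' → LinearIndependent ℂ ![B l, B l']) ∧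
      (∀ z, L z = M'.mulVec z) ∧ (∀ l z, ∑ r, A l r * L z r = ∑ r, B l r * z r) ∧
      AnalyticAt ℂ (f ∘ L) 0 ∧ BFam (f ∘ L) b ∧
      (∑ r, A i r * L ![0, 0, 1] r = 0) ∧ (∑ r, A j r * L ![0, 0, 1] r = 0) ∧
      L ![0, 0, 1] ≠ 0 := by
  obtain ⟨M, M', hMM', hM'M, hM0, hM1⟩ := exists_coord (hA i j hij)
  set L0 : (Fin 3 → ℂ) ≃ₗ[ℂ] (Fin 3 → ℂ) := Matrix.toLin'OfInv hMM' hM'M with hL0
  set L : (Fin 3 → ℂ) ≃L[ℂ] (Fin 3 → ℂ) := L0.toContinuousLinearEquiv with hL
  have hLz : ∀ z, L z = M'.mulVec z := fun z => rfl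
  set B : Fin d → Fin 3 → ℂ := fun l => Matrix.vecMul (A l) M' with hB
  have hAB : ∀ l z, ∑ r, A l r * L z r = ∑ r, B l r * z r := by
    intro l z
    have := Matrix.dotProduct_mulVec (A l) M' z
    rw [hLz]
    exact this
  have hBA : ∀ l, A l = Matrix.vecMul (B l) M := by
    intro l
    rw [hB]
    simp only [Matrix.vecMul_vecMul, hM'M, Matrix.vecMul_one]
  have hinj : Function.Injective (fun v : Fin 3 → ℂ => Matrix.vecMul v M) := by
    intro v w h
    have h1 := congrArg (fun u => Matrix.vecMul u M') h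
    simpa only [Matrix.vecMul_vecMul, hMM', Matrix.vecMul_one] using h1
  have hpair : ∀ l l', l ≠ l' → LinearIndependent ℂ ![B l, B l'] := by
    intro l l' hll
    have h1 := hA l l' hll
    rw [LinearIndependent.pair_iff] at h1 ⊢
    intro s t hst
    apply h1
    have h2 : Matrix.vecMul (s • B l + t • B l') M = 0 := by rw [hst, Matrix.zero_vecMul]
    rw [Matrix.add_vecMul, Matrix.smul_vecMul, Matrix.smul_vecMul, ← hBA l, ← hBA l'] at h2
    exact h2
  have hBi : B i = ![1, 0, 0] := by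
    apply hinj
    change Matrix.vecMul (B i) M = Matrix.vecMul ![1, 0, 0] M
    rw [← hBA i]
    funext r
    simp [Matrix.vecMul, dotProduct, Fin.sum_univ_three, hM0]
  have hBj : B j = ![0, 1, 0] := by
    apply hinj
    change Matrix.vecMul (B j) M = Matrix.vecMul ![0, 1, 0] M
    rw [← hBA j]
    funext r
    simp [Matrix.vecMul, dotProduct, Fin.sum_univ_three, hM1]
  have hS2 : ∀ l, l ∈ S ↔ B l 2 = 0 := by
    intro l
    rw [hS, Submodule.mem_span_pair]
    constructor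
    · rintro ⟨x, y, hxy⟩
      have h1 : B l = ![x, y, 0] := by
        apply hinj
        change Matrix.vecMul (B l) M = Matrix.vecMul ![x, y, 0] M
        rw [← hBA l, ← hxy]
        funext r
        simp [Matrix.vecMul, dotProduct, Fin.sum_univ_three, hM1, hM0]
      rw [h1]; simp
    · intro h
      refine ⟨B l 0, B l 1, ?_⟩
      rw [hBA l]
      funext r
      simp [Matrix.vecMul, dotProduct, Fin.sum_univ_three, hM1, hM0, h]
  have hcard : 2 ≤ S.card := by
    have h1 : ({i, j} : Finset (Fin d)) ⊆ S := by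
      intro l hl
      rw [hS]
      rw [Finset.mem_insert, Finset.mem_singleton] at hl
      rcases hl with rfl | rfl
      · exact Submodule.subset_span (by simp)
      · exact Submodule.subset_span (by simp)
    calc 2 = ({i, j} : Finset (Fin d)).card := (Finset.card_pair hij).symm
      _ ≤ S.card := Finset.card_le_card h1
  refine ⟨B, L, M', hcard, hS2, hpair, hLz, hAB, ?_, hb.lin L hf, ?_, ?_, ?_⟩
  · refine AnalyticAt.comp (f := L) ?_ (L.analyticAt 0)
    rw [map_zero]; exact hf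
  · rw [hAB, hBi]; simp [Fin.sum_univ_three]
  · rw [hAB, hBj]; simp [Fin.sum_univ_three]
  · intro h
    have h1 : (![0, 0, 1] : Fin 3 → ℂ) = 0 := by
      apply L.injective
      rw [h, map_zero]
    have h2 := congrFun h1 2
    simp at h2

lemma isBigO_comp_lin (L : (Fin 3 → ℂ) ≃L[ℂ] (Fin 3 → ℂ)) {h : (Fin 3 → ℂ) → ℂ} {K : ℕ}
    (hh : h =O[𝓝 0] (fun z : Fin 3 → ℂ => ‖z‖ ^ K)) :
    (fun z => h (L z)) =O[𝓝 0] (fun z : Fin 3 → ℂ => ‖z‖ ^ K) := by
  have hL0 : Tendsto L (𝓝 0) (𝓝 0) := by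
    have := L.continuous.tendsto 0
    rwa [map_zero] at this
  have h1 : (fun z => h (L z)) =O[𝓝 0] (fun z : Fin 3 → ℂ => ‖L z‖ ^ K) := hh.comp_tendsto hL0
  refine h1.trans (IsBigO.pow ?_ K)
  have h2 : (fun z => L z) =O[𝓝 0] (fun z : Fin 3 → ℂ => z) :=
    (L : (Fin 3 → ℂ) →L[ℂ] (Fin 3 → ℂ)).isBigO_id _
  exact h2.norm_norm

/-- **The root of a multiple point of the tangent cone.** -/
theorem root_T {k : ℕ} (hk : 1 ≤ k) (A : Fin d → Fin 3 → ℂ)
    (hA : ∀ i j, i ≠ j → LinearIndependent ℂ ![A i, A j]) {i j : Fin d} (hij : i ≠ j)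
    (S : Finset (Fin d)) (hS : ∀ l, l ∈ S ↔ A l ∈ Submodule.span ℂ {A i, A j})
    {g : MvPolynomial (Fin 3) ℂ} (hg : g.IsHomogeneous (d + k))
    (hgp : ∀ z : Fin 3 → ℂ, z ≠ 0 → ∑ r, A i r * z r = 0 → ∑ r, A j r * z r = 0 → eval z g ≠ 0)
    {f : (Fin 3 → ℂ) → ℂ} (hf : AnalyticAt ℂ f 0)
    (hO : (fun z => f z - (∏ l, (∑ j, A l j * z j) + eval z g)) =O[𝓝 0]
      (fun z : Fin 3 → ℂ => ‖z‖ ^ (d + k + 1)))
    {b : Polynomial ℂ} (hb : BFam f b) :
    b.eval (-(2 * k + 3 * S.card : ℕ) / ((d + k) * S.card : ℕ) : ℂ) = 0 := by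
  obtain ⟨B, L, M', hcard, hS2, hpair, hLz, hAB, hfa, hb', hi, hj, hne⟩ :=
    lin_data A hA hij S hS hf hb
  have hgh : (lin M' g).IsHomogeneous (d + k) := by
    have h1 : ∀ i : Fin 3, (∑ j, C (M' i j) * X j : MvPolynomial (Fin 3) ℂ).IsHomogeneous 1 := by
      intro i
      refine IsHomogeneous.sum _ _ _ fun j _ => ?_
      have := (isHomogeneous_C (Fin 3) (M' i j)).mul (isHomogeneous_X ℂ j)
      simpa using this
    have h2 := hg.aeval (g := fun i => ∑ j, C (M' i j) * X j) h1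
    rw [one_mul] at h2
    exact h2
  refine root_point hk B S hcard hS2 (fun l _ l' _ h => hpair l l' h) hgh ?_ hfa ?_ hb'
  · rw [eval_lin, ← hLz]
    exact hgp _ hne hi hj
  · refine (isBigO_comp_lin L hO).congr_left fun z => ?_
    simp only [Function.comp]
    rw [eval_lin, ← hLz]
    congr 2
    exact Finset.prod_congr rfl fun l _ => hAB l z

/-- **The root `-3/d`, with a point of multiplicity `2 d / 3`.** -/
theorem root_log' (A : Fin d → Fin 3 → ℂ)
    (hA : ∀ i j, i ≠ j → LinearIndependent ℂ ![A i, A j]) {i j : Fin d} (hij : i ≠ j)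
    (S : Finset (Fin d)) (hS : ∀ l, l ∈ S ↔ A l ∈ Submodule.span ℂ {A i, A j})
    (h23 : 3 * S.card = 2 * d)
    {f : (Fin 3 → ℂ) → ℂ} (hf : AnalyticAt ℂ f 0)
    (hO : (fun z => f z - ∏ l, (∑ j, A l j * z j)) =O[𝓝 0]
      (fun z : Fin 3 → ℂ => ‖z‖ ^ (d + 1)))
    {b : Polynomial ℂ} (hb : BFam f b) :
    b.eval (-3 / (d : ℂ)) = 0 := by
  obtain ⟨B, L, M', hcard, hS2, hpair, hLz, hAB, hfa, hb', hi, hj, hne⟩ :=
    lin_data A hA hij S hS hf hb
  refine root_log B S hcard hS2 (fun l _ l' _ h => hpair l l' h) h23 hfa ?_ hb'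
  refine (isBigO_comp_lin L hO).congr_left fun z => ?_
  simp only [Function.comp]
  congr 1
  exact Finset.prod_congr rfl fun l _ => hAB l z

end Pool.Agent.helper67.LY
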