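import Mathlib
import Pool.Agent.helper67.IF.Fam

/-!
# The topological zeta function of a Lê-Yomdin singularity with a line arrangement as tangent cone
-/

set_option autoImplicit false

namespace Pool.Agent.helper67.LY

open Finset Polynomial

/-! ### Regular rational functions -/

/-- `z` is regular at `a` -/
def Reg (a : ℂ) (z : RatFunc ℂ) : Prop :=
  ∃ P Q : ℂ[X], Q.eval a ≠ 0 ∧ z = algebraMap ℂ[X] (RatFunc ℂ) P / algebraMap ℂ[X] (RatFunc ℂ) Q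

lemma aM_ne {Q : ℂ[X]} (h : Q ≠ 0) : algebraMap ℂ[X] (RatFunc ℂ) Q ≠ 0 := by
  rw [Ne, map_eq_zero_iff _ (RatFunc.algebraMap_injective ℂ)]
  exact h

lemma ne_of_eval {Q : ℂ[X]} {a : ℂ} (h : Q.eval a ≠ 0) : Q ≠ 0 := by
  rintro rfl
  simp at h

lemma Reg.poly (a : ℂ) (P : ℂ[X]) : Reg a (algebraMap ℂ[X] (RatFunc ℂ) P) :=
  ⟨P, 1, by simp, by simp⟩

lemma Reg.natCast (a : ℂ) (c : ℕ) : Reg a (c : RatFunc ℂ) := by
  have := Reg.poly a (c : ℂ[X])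
  rwa [map_natCast] at this

lemma Reg.one (a : ℂ) : Reg a 1 := by
  have := Reg.natCast a 1
  rwa [Nat.cast_one] at this

lemma Reg.X (a : ℂ) : Reg a (RatFunc.X : RatFunc ℂ) := by
  rw [← RatFunc.algebraMap_X]
  exact Reg.poly a _

lemma Reg.zero (a : ℂ) : Reg a 0 := by
  have := Reg.natCast a 0
  rwa [Nat.cast_zero] at this

lemma Reg.add {a : ℂ} {z w : RatFunc ℂ} (h : Reg a z) (h' : Reg a w) : Reg a (z + w) := by
  obtain ⟨P, Q, h1, h2⟩ := h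
  obtain ⟨P', Q', h1', h2'⟩ := h'
  refine ⟨P * Q' + Q * P', Q * Q', ?_, ?_⟩
  · rw [eval_mul]
    exact mul_ne_zero h1 h1'
  · rw [h2, h2', div_add_div _ _ (aM_ne (ne_of_eval h1)) (aM_ne (ne_of_eval h1'))]
    simp only [map_add, map_mul]

lemma Reg.mul {a : ℂ} {z w : RatFunc ℂ} (h : Reg a z) (h' : Reg a w) : Reg a (z * w) := by
  obtain ⟨P, Q, h1, h2⟩ := h
  obtain ⟨P', Q', h1', h2'⟩ := h'
  refine ⟨P * P', Q * Q', ?_, ?_⟩
  · rw [eval_mul]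
    exact mul_ne_zero h1 h1'
  · rw [h2, h2', div_mul_div_comm]
    simp only [map_mul]

lemma Reg.neg {a : ℂ} {z : RatFunc ℂ} (h : Reg a z) : Reg a (-z) := by
  obtain ⟨P, Q, h1, h2⟩ := h
  exact ⟨-P, Q, h1, by rw [h2, map_neg]; ring⟩

lemma Reg.sub {a : ℂ} {z w : RatFunc ℂ} (h : Reg a z) (h' : Reg a w) : Reg a (z - w) := by
  rw [sub_eq_add_neg]
  exact h.add h'.neg

lemma Reg.pow {a : ℂ} {z : RatFunc ℂ} (h : Reg a z) (k : ℕ) : Reg a (z ^ k) := by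
  induction k with
  | zero => simpa using Reg.one a
  | succ k ih => simpa only [pow_succ] using ih.mul h

lemma Reg.sum {a : ℂ} {α : Type} (S : Finset α) (z : α → RatFunc ℂ)
    (h : ∀ x ∈ S, Reg a (z x)) : Reg a (∑ x ∈ S, z x) := by
  classical
  induction S using Finset.induction_on with
  | empty => simpa using Reg.zero a
  | insert x S hx ih =>
    rw [Finset.sum_insert hx]
    exact (h x (mem_insert_self _ _)).add (ih fun b hb => h b (mem_insert_of_mem hb))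

lemma Reg.inv {a : ℂ} {Q : ℂ[X]} (h : Q.eval a ≠ 0) :
    Reg a (algebraMap ℂ[X] (RatFunc ℂ) Q)⁻¹ :=
  ⟨1, Q, h, by simp⟩

lemma Reg.not_pole {a : ℂ} {z : RatFunc ℂ} (h : Reg a z) : ¬ z.denom.IsRoot a := by
  obtain ⟨P, Q, h1, h2⟩ := h
  intro hr
  have hQ : Q ≠ 0 := ne_of_eval h1
  have hdvd : z.denom ∣ Q := by
    rw [h2]
    exact RatFunc.denom_div_dvd P Q
  exact h1 (hr.dvd hdvd)

/-! ### The zeta function -/

variable {d : ℕ}

open Classical in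
/-- The multiple points of the arrangement: the sets of all lines through the intersection of two
of the lines. -/
noncomputable def Pts (A : Fin d → Fin 3 → ℂ) : Finset (Finset (Fin d)) :=
  (Finset.univ.filter (fun p : Fin d × Fin d => p.1 ≠ p.2)).image
    (fun p => Finset.univ.filter (fun l => A l ∈ Submodule.span ℂ {A p.1, A p.2}))

/-- The contribution of a point of multiplicity `m` of the tangent cone. -/
noncomputable def Zpt (d k m : ℕ) : RatFunc ℂ :=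
  (m + (2 - m) * k / (d * (RatFunc.X : RatFunc ℂ) + 3) +
    (m - 2) * (Nat.gcd m k : RatFunc ℂ) ^ 2 * (RatFunc.X : RatFunc ℂ) / ((RatFunc.X : RatFunc ℂ) + 1) +
    m * k / ((d * (RatFunc.X : RatFunc ℂ) + 3) * ((RatFunc.X : RatFunc ℂ) + 1))) /
    ((d + k) * m * (RatFunc.X : RatFunc ℂ) + (2 * k + 3 * m))

/-- The topological zeta function. -/
noncomputable def Ztop (A : Fin d → Fin 3 → ℂ) (k : ℕ) : RatFunc ℂ :=
  (3 - 2 * d + ∑ S ∈ Pts A, ((S.card : RatFunc ℂ) - 1)) / (d * (RatFunc.X : RatFunc ℂ) + 3) +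
  (2 * d - ∑ S ∈ Pts A, (S.card : RatFunc ℂ)) / ((d * (RatFunc.X : RatFunc ℂ) + 3) * ((RatFunc.X : RatFunc ℂ) + 1)) +
  ∑ S ∈ Pts A, Zpt d k S.card

/-- the polynomial `d X + 3` -/
noncomputable def uP (d : ℕ) : ℂ[X] := (d : ℂ[X]) * X + 3

/-- the polynomial `X + 1` -/
noncomputable def vP : ℂ[X] := X + 1

/-- the polynomial `(d + k) m X + 2 k + 3 m` -/
noncomputable def TP (d k m : ℕ) : ℂ[X] := ((d : ℂ[X]) + (k : ℂ[X])) * (m : ℂ[X]) * X +
  (2 * (k : ℂ[X]) + 3 * (m : ℂ[X]))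

lemma aM_ofNat (n : ℕ) [n.AtLeastTwo] :
    algebraMap ℂ[X] (RatFunc ℂ) (OfNat.ofNat n) = OfNat.ofNat n := map_ofNat _ n

lemma uP_map (d : ℕ) : algebraMap ℂ[X] (RatFunc ℂ) (uP d) = d * (RatFunc.X : RatFunc ℂ) + 3 := by
  rw [uP, map_add, map_mul, map_natCast, RatFunc.algebraMap_X, aM_ofNat]

lemma vP_map : algebraMap ℂ[X] (RatFunc ℂ) vP = (RatFunc.X : RatFunc ℂ) + 1 := by
  simp [vP, RatFunc.algebraMap_X]

lemma TP_map (d k m : ℕ) : algebraMap ℂ[X] (RatFunc ℂ) (TP d k m) =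
    (d + k) * m * (RatFunc.X : RatFunc ℂ) + (2 * k + 3 * m) := by
  simp only [TP, map_add, map_mul, map_natCast, RatFunc.algebraMap_X, map_ofNat]

lemma uP_ne (d : ℕ) : uP d ≠ 0 := by
  refine ne_of_eval (a := 0) ?_
  simp [uP]

lemma vP_ne : vP ≠ 0 := by
  refine ne_of_eval (a := 0) ?_
  simp [vP]

lemma TP_ne (d k m : ℕ) (hm : 1 ≤ m) : TP d k m ≠ 0 := by
  refine ne_of_eval (a := 0) ?_
  simp only [TP, eval_add, eval_mul, eval_natCast, eval_X, mul_zero, zero_add, eval_ofNat]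
  have : (2 * k + 3 * m : ℕ) ≠ 0 := by omega
  exact_mod_cast this

/-- Away from the candidate poles the zeta function is regular. -/
lemma Ztop_reg (A : Fin d → Fin 3 → ℂ) (k : ℕ) (a : ℂ) (hu : (uP d).eval a ≠ 0)
    (hv : vP.eval a ≠ 0) (hT : ∀ S ∈ Pts A, (TP d k S.card).eval a ≠ 0) : Reg a (Ztop A k) := by
  have h2 : Reg a 2 := Reg.natCast a 2
  have h3 : Reg a 3 := Reg.natCast a 3
  have hui := Reg.inv hu
  have hvi := Reg.inv hv
  have huv : Reg a (algebraMap ℂ[X] (RatFunc ℂ) (uP d) * algebraMap ℂ[X] (RatFunc ℂ) vP)⁻¹ := by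
    rw [mul_inv]; exact hui.mul hvi
  unfold Ztop
  rw [← uP_map, ← vP_map]
  refine Reg.add (Reg.add ?_ ?_) (Reg.sum _ _ fun S hS => ?_)
  · rw [div_eq_mul_inv]
    refine Reg.mul ?_ hui
    exact (h3.sub (h2.mul (Reg.natCast a d))).add
      (Reg.sum _ _ fun S _ => (Reg.natCast a _).sub (Reg.one a))
  · rw [div_eq_mul_inv]
    refine Reg.mul ?_ huv
    exact (h2.mul (Reg.natCast a d)).sub (Reg.sum _ _ fun S _ => Reg.natCast a _)
  · unfold Zpt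
    rw [← uP_map, ← vP_map, ← TP_map, div_eq_mul_inv _ (algebraMap ℂ[X] (RatFunc ℂ) (TP d k S.card))]
    refine Reg.mul ?_ (Reg.inv (hT S hS))
    have hm := Reg.natCast a S.card
    have hk := Reg.natCast a k
    refine Reg.add (Reg.add (Reg.add hm ?_) ?_) ?_
    · rw [div_eq_mul_inv]
      exact ((h2.sub hm).mul hk).mul hui
    · rw [div_eq_mul_inv]
      exact (((hm.sub h2).mul ((Reg.natCast a _).pow 2)).mul (Reg.X a)).mul hvi
    · rw [div_eq_mul_inv]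
      exact (hm.mul hk).mul huv

lemma key_pencil {K : Type} [Field K] (x d k g : K) (hu : d * x + 3 ≠ 0) (hv : x + 1 ≠ 0)
    (hT : (d + k) * d * x + (2 * k + 3 * d) ≠ 0) :
    (3 - 2 * d + (d - 1)) / (d * x + 3) + (2 * d - d) / ((d * x + 3) * (x + 1)) +
      (d + (2 - d) * k / (d * x + 3) + (d - 2) * g ^ 2 * x / (x + 1) +
        d * k / ((d * x + 3) * (x + 1))) / ((d + k) * d * x + (2 * k + 3 * d)) =
    ((2 - d) * (d + k) + d * (d + k) * (x + 1)⁻¹ + d + (d - 2) * g ^ 2 * x * (x + 1)⁻¹) *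
      ((d + k) * d * x + (2 * k + 3 * d))⁻¹ := by
  obtain ⟨T, hTd⟩ : ∃ T, T = (d + k) * d * x + (2 * k + 3 * d) := ⟨_, rfl⟩
  rw [← hTd] at hT ⊢
  field_simp
  rw [hTd]
  ring

lemma key_near {K : Type} [Field K] (x e k g : K) (hu : (e + 1) * x + 3 ≠ 0) (hv : x + 1 ≠ 0)
    (hT : (e + 1 + k) * e * x + (2 * k + 3 * e) ≠ 0)
    (hT2 : (e + 1 + k) * 2 * x + (2 * k + 3 * 2) ≠ 0) :
    (3 - 2 * (e + 1) + ((e - 1) + e * (2 - 1))) / ((e + 1) * x + 3) +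
      (2 * (e + 1) - (e + e * 2)) / (((e + 1) * x + 3) * (x + 1)) +
      ((e + (2 - e) * k / ((e + 1) * x + 3) + (e - 2) * g ^ 2 * x / (x + 1) +
        e * k / (((e + 1) * x + 3) * (x + 1))) / ((e + 1 + k) * e * x + (2 * k + 3 * e)) +
        e * ((2 + (2 - 2) * k / ((e + 1) * x + 3) + (2 - 2) * g ^ 2 * x / (x + 1) +
        2 * k / (((e + 1) * x + 3) * (x + 1))) / ((e + 1 + k) * 2 * x + (2 * k + 3 * 2)))) =
    (e + (e - 2) * g ^ 2 * x * (x + 1)⁻¹) * ((e + 1 + k) * e * x + (2 * k + 3 * e))⁻¹ +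
      e * 2 * ((e + 1 + k) * 2 * x + (2 * k + 3 * 2))⁻¹ +
      ((2 - e) * (e + k) * ((e + 1 + k) * 2 * x + (2 * k + 3 * 2)) +
        2 * e * k * (e + 1 + k)) * ((x + 1)⁻¹ *
        ((e + 1 + k) * e * x + (2 * k + 3 * e))⁻¹ *
        ((e + 1 + k) * 2 * x + (2 * k + 3 * 2))⁻¹) := by
  obtain ⟨T, hTd⟩ : ∃ T, T = (e + 1 + k) * e * x + (2 * k + 3 * e) := ⟨_, rfl⟩
  obtain ⟨R, hRd⟩ : ∃ R, R = (e + 1 + k) * 2 * x + (2 * k + 3 * 2) := ⟨_, rfl⟩
  rw [← hTd] at hT ⊢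
  rw [← hRd] at hT2 ⊢
  field_simp
  rw [hTd, hRd]
  ring

/-- Pencils: the point `-3/d` is not a pole. -/
lemma Ztop_reg_pencil (A : Fin d → Fin 3 → ℂ) (k : ℕ) (hd : 2 ≤ d) (a : ℂ)
    (hP : Pts A = {Finset.univ})
    (hv : vP.eval a ≠ 0) (hT : ∀ S ∈ Pts A, (TP d k S.card).eval a ≠ 0) : Reg a (Ztop A k) := by
  have hT0 := hT Finset.univ (by rw [hP]; exact Finset.mem_singleton_self _)
  rw [Finset.card_univ, Fintype.card_fin] at hT0
  have h2 : Reg a 2 := Reg.natCast a 2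
  have hvi := Reg.inv hv
  have hTi := Reg.inv hT0
  have hd' := Reg.natCast a d
  have hk := Reg.natCast a k
  have hue : (d : RatFunc ℂ) * (RatFunc.X : RatFunc ℂ) + 3 ≠ 0 := by rw [← uP_map]; exact aM_ne (uP_ne d)
  have hve : (RatFunc.X : RatFunc ℂ) + 1 ≠ 0 := by rw [← vP_map]; exact aM_ne vP_ne
  have hTe : ((d : RatFunc ℂ) + k) * d * (RatFunc.X : RatFunc ℂ) + (2 * k + 3 * d) ≠ 0 := by
    rw [← TP_map]; exact aM_ne (TP_ne d k d (by omega))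
  have key : Ztop A k = ((2 - d) * (d + k) +
      d * (d + k) * (algebraMap ℂ[X] (RatFunc ℂ) vP)⁻¹ + d +
      (d - 2) * (Nat.gcd d k : RatFunc ℂ) ^ 2 * (RatFunc.X : RatFunc ℂ) * (algebraMap ℂ[X] (RatFunc ℂ) vP)⁻¹) *
      (algebraMap ℂ[X] (RatFunc ℂ) (TP d k d))⁻¹ := by
    unfold Ztop Zpt
    rw [hP, Finset.sum_singleton, Finset.sum_singleton, Finset.sum_singleton, Finset.card_univ,
      Fintype.card_fin, vP_map, TP_map]
    exact key_pencil _ _ _ _ hue hve hTe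
  rw [key]
  refine Reg.mul ?_ hTi
  refine Reg.add (Reg.add (Reg.add ?_ ?_) hd') ?_
  · exact (h2.sub hd').mul (hd'.add hk)
  · exact (hd'.mul (hd'.add hk)).mul hvi
  · exact (((hd'.sub h2).mul ((Reg.natCast a _).pow 2)).mul (Reg.X a)).mul hvi

/-- Near pencils: the point `-3/d` is not a pole. -/
lemma Ztop_reg_near (A : Fin d → Fin 3 → ℂ) (k : ℕ) (hd : 2 ≤ d) (a : ℂ)
    (hP : ∀ F : ℕ → RatFunc ℂ, ∑ S ∈ Pts A, F S.card =
      F (d - 1) + ((d - 1 : ℕ) : RatFunc ℂ) * F 2)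
    (hv : vP.eval a ≠ 0) (hT1 : (TP d k (d - 1)).eval a ≠ 0) (hT2 : (TP d k 2).eval a ≠ 0)  :
    Reg a (Ztop A k) := by
  have h2 : Reg a 2 := Reg.natCast a 2
  have h3 : Reg a 3 := Reg.natCast a 3
  have hvi := Reg.inv hv
  have hTi := Reg.inv hT1
  have hTi2 := Reg.inv hT2
  have hd' := Reg.natCast a d
  have hk := Reg.natCast a k
  have hue : (d : RatFunc ℂ) * (RatFunc.X : RatFunc ℂ) + 3 ≠ 0 := by rw [← uP_map]; exact aM_ne (uP_ne d)
  have hve : (RatFunc.X : RatFunc ℂ) + 1 ≠ 0 := by rw [← vP_map]; exact aM_ne vP_ne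
  obtain ⟨e, rfl⟩ : ∃ e, d = e + 1 := ⟨d - 1, by omega⟩
  rw [Nat.add_sub_cancel] at *
  have he' := Reg.natCast a e
  have hTe : (((e + 1 : ℕ) : RatFunc ℂ) + k) * e * (RatFunc.X : RatFunc ℂ) + (2 * k + 3 * e) ≠ 0 := by
    rw [← TP_map]; exact aM_ne (TP_ne (e + 1) k e (by omega))
  have hTe2 : (((e + 1 : ℕ) : RatFunc ℂ) + k) * (2 : ℕ) * (RatFunc.X : RatFunc ℂ) + (2 * k + 3 * (2 : ℕ)) ≠ 0 := by
    rw [← TP_map]; exact aM_ne (TP_ne (e + 1) k 2 (by omega))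
  have key : Ztop A k = (e + (e - 2) * (Nat.gcd e k : RatFunc ℂ) ^ 2 * (RatFunc.X : RatFunc ℂ) *
        (algebraMap ℂ[X] (RatFunc ℂ) vP)⁻¹) * (algebraMap ℂ[X] (RatFunc ℂ) (TP (e + 1) k e))⁻¹ +
      e * 2 * (algebraMap ℂ[X] (RatFunc ℂ) (TP (e + 1) k 2))⁻¹ +
      ((2 - e) * (e + k) * (algebraMap ℂ[X] (RatFunc ℂ) (TP (e + 1) k 2)) +
        2 * e * k * (e + 1 + k)) * ((algebraMap ℂ[X] (RatFunc ℂ) vP)⁻¹ *
        (algebraMap ℂ[X] (RatFunc ℂ) (TP (e + 1) k e))⁻¹ *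
        (algebraMap ℂ[X] (RatFunc ℂ) (TP (e + 1) k 2))⁻¹) := by
    unfold Ztop
    rw [hP (fun m => (m : RatFunc ℂ) - 1), hP (fun m => (m : RatFunc ℂ)), hP (Zpt (e + 1) k)]
    unfold Zpt
    rw [vP_map, TP_map, TP_map]
    push_cast at hue hTe hTe2 ⊢
    have h := key_near _ _ _ (Nat.gcd e k : RatFunc ℂ) hue hve hTe hTe2
    rw [← h]
    congr 3
    simp
  rw [key]
  refine Reg.add (Reg.add ?_ ?_) ?_
  · refine Reg.mul (he'.add ?_) hTi
    exact (((he'.sub h2).mul ((Reg.natCast a _).pow 2)).mul (Reg.X a)).mul hvi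
  · exact (he'.mul h2).mul hTi2
  · refine Reg.mul (Reg.add ?_ ?_) ((hvi.mul hTi).mul hTi2)
    · exact ((h2.sub he').mul (he'.add hk)).mul (Reg.poly a _)
    · exact ((h2.mul he').mul hk).mul ((he'.add (Reg.one a)).add hk)

end Pool.Agent.helper67.LY
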