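import Mathlib
import Pool.Agent.helper67.LY.Z
import Pool.Agent.helper67.LY.Lin

/-!
# Line arrangements: multiple points, pencils and near pencils
-/

set_option autoImplicit false

namespace Pool.Agent.helper67.LY

open Finset
open Pool.Agent.helper67.IF Pool.Agent.helper67.ND

variable {d : ℕ}

lemma finrank_pair {v w : Fin 3 → ℂ} (h : LinearIndependent ℂ ![v, w]) :
    Module.finrank ℂ (Submodule.span ℂ ({v, w} : Set (Fin 3 → ℂ))) = 2 := by
  have h1 := finrank_span_eq_card h
  rwa [Matrix.range_cons, Matrix.range_cons, Matrix.range_empty, Set.union_empty,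
    Set.singleton_union, Fintype.card_fin] at h1

/-- A proper subspace which contains two of the forms is spanned by them. -/
lemma span_eq_of_mem {A : Fin d → Fin 3 → ℂ} (hA : ∀ i j, i ≠ j → LinearIndependent ℂ ![A i, A j])
    {W : Submodule ℂ (Fin 3 → ℂ)} (hW : Module.finrank ℂ W ≤ 2) {i j : Fin d} (hij : i ≠ j)
    (hi : A i ∈ W) (hj : A j ∈ W) : Submodule.span ℂ {A i, A j} = W := by
  have h1 : Submodule.span ℂ {A i, A j} ≤ W := by
    rw [Submodule.span_le]
    rintro x (rfl | rfl)
    · exact hi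
    · exact hj
  exact Submodule.eq_of_le_of_finrank_le h1 (by rw [finrank_pair (hA i j hij)]; exact hW)

lemma finrank_le_two {W : Submodule ℂ (Fin 3 → ℂ)} (hW : W ≠ ⊤) : Module.finrank ℂ W ≤ 2 := by
  have h1 := Submodule.finrank_lt hW
  rw [Module.finrank_fin_fun] at h1
  omega

lemma span_pair_ne_top {A : Fin d → Fin 3 → ℂ}
    (hA : ∀ i j, i ≠ j → LinearIndependent ℂ ![A i, A j]) {i j : Fin d} (hij : i ≠ j) :
    Submodule.span ℂ {A i, A j} ≠ ⊤ := by
  intro h
  have := finrank_pair (hA i j hij)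
  rw [h, finrank_top, Module.finrank_fin_fun] at this
  omega

lemma mem_Pts {A : Fin d → Fin 3 → ℂ} {S : Finset (Fin d)} :
    S ∈ Pts A ↔ ∃ i j, i ≠ j ∧ ∀ l, l ∈ S ↔ A l ∈ Submodule.span ℂ {A i, A j} := by
  classical
  unfold Pts
  rw [mem_image]
  constructor
  · rintro ⟨⟨i, j⟩, hp, rfl⟩
    refine ⟨i, j, (mem_filter.1 hp).2, fun l => ?_⟩
    rw [mem_filter]
    exact ⟨fun h => h.2, fun h => ⟨mem_univ _, h⟩⟩
  · rintro ⟨i, j, hij, h⟩
    refine ⟨(i, j), mem_filter.2 ⟨mem_univ _, hij⟩, ?_⟩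
    ext l
    rw [mem_filter, h]
    exact ⟨fun h => h.2, fun h => ⟨mem_univ _, h⟩⟩

lemma mem_of_Pts {A : Fin d → Fin 3 → ℂ} (hA : ∀ i j, i ≠ j → LinearIndependent ℂ ![A i, A j])
    {S : Finset (Fin d)} (hS : S ∈ Pts A) {i j : Fin d} (hij : i ≠ j) (hi : i ∈ S) (hj : j ∈ S)
    (l : Fin d) : l ∈ S ↔ A l ∈ Submodule.span ℂ {A i, A j} := by
  obtain ⟨a, b, hab, h⟩ := mem_Pts.1 hS
  rw [h, span_eq_of_mem hA (finrank_le_two (span_pair_ne_top hA hab)) hij ((h i).1 hi)
    ((h j).1 hj)]

lemma two_le_card {A : Fin d → Fin 3 → ℂ} {S : Finset (Fin d)} (hS : S ∈ Pts A) :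
    2 ≤ S.card := by
  obtain ⟨i, j, hij, h⟩ := mem_Pts.1 hS
  have h1 : ({i, j} : Finset (Fin d)) ⊆ S := by
    intro l hl
    rw [h]
    rw [mem_insert, mem_singleton] at hl
    rcases hl with rfl | rfl
    · exact Submodule.subset_span (by simp)
    · exact Submodule.subset_span (by simp)
  calc 2 = ({i, j} : Finset (Fin d)).card := (card_pair hij).symm
    _ ≤ S.card := card_le_card h1

lemma card_le_d {S : Finset (Fin d)} : S.card ≤ d := by
  have := card_le_univ S
  rwa [Fintype.card_fin] at this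

open Classical in
lemma filter_mem_Pts {A : Fin d → Fin 3 → ℂ} {i j : Fin d} (hij : i ≠ j) :
    (Finset.univ.filter (fun l => A l ∈ Submodule.span ℂ {A i, A j})) ∈ Pts A :=
  mem_Pts.2 ⟨i, j, hij, fun l => by
    rw [mem_filter]
    exact ⟨fun h => h.2, fun h => ⟨mem_univ _, h⟩⟩⟩

/-- Pencils. -/
lemma Pts_pencil {A : Fin d → Fin 3 → ℂ} (hA : ∀ i j, i ≠ j → LinearIndependent ℂ ![A i, A j])
    {S : Finset (Fin d)} (hS : S ∈ Pts A) (hd : S.card = d) : Pts A = {Finset.univ} := by
  have hSu : S = Finset.univ := by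
    rw [← card_eq_iff_eq_univ, hd, Fintype.card_fin]
  ext T
  rw [mem_singleton]
  constructor
  · intro hT
    obtain ⟨a, b, hab, h⟩ := mem_Pts.1 hT
    ext l
    rw [h]
    refine ⟨fun _ => mem_univ _, fun _ => ?_⟩
    have h1 := mem_of_Pts hA hS hab (by rw [hSu]; exact mem_univ _) (by rw [hSu]; exact mem_univ _) l
    exact h1.1 (by rw [hSu]; exact mem_univ _)
  · rintro rfl
    rw [← hSu]
    exact hS

/-- Near pencils. -/
lemma Pts_near {A : Fin d → Fin 3 → ℂ} (hA : ∀ i j, i ≠ j → LinearIndependent ℂ ![A i, A j])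
    {S : Finset (Fin d)} (hS : S ∈ Pts A) (hd : S.card + 1 = d) {M : Type} [CommRing M]
    (F : ℕ → M) : ∑ T ∈ Pts A, F T.card = F (d - 1) + ((d - 1 : ℕ) : M) * F 2 := by
  classical
  obtain ⟨l0, hl0⟩ : ∃ l0, Sᶜ = {l0} := by
    rw [← card_eq_one, card_compl, Fintype.card_fin]
    omega
  have hmem : ∀ l, l ∈ S ↔ l ≠ l0 := by
    intro l
    rw [← not_iff_not, ← mem_compl, hl0, mem_singleton, not_not]
  have hPts : Pts A = insert S (S.image (fun j => ({l0, j} : Finset (Fin d)))) := by
    ext T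
    rw [mem_insert, mem_image]
    constructor
    · intro hT
      obtain ⟨a, b, hab, h⟩ := mem_Pts.1 hT
      have ha : a ∈ T := (h a).2 (Submodule.subset_span (by simp))
      have hb : b ∈ T := (h b).2 (Submodule.subset_span (by simp))
      by_cases h1 : l0 ∈ T
      · -- the other point
        have hex : ∃ j, j ≠ l0 ∧ j ∈ T := by
          by_cases ha0 : a = l0
          · exact ⟨b, fun hb0 => hab (ha0.trans hb0.symm), hb⟩
          · exact ⟨a, ha0, ha⟩
        obtain ⟨j, hj, hjT⟩ := hex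
        refine Or.inr ⟨j, (hmem j).2 hj, ?_⟩
        ext l
        rw [mem_insert, mem_singleton]
        constructor
        · rintro (rfl | rfl)
          · exact h1
          · exact hjT
        · intro hl
          by_contra hcon
          push Not at hcon
          have h2 : ∀ x, x ∈ T ↔ A x ∈ Submodule.span ℂ {A l, A j} :=
            fun x => mem_of_Pts hA hT hcon.2 hl hjT x
          have h3 : ∀ x, x ∈ S ↔ A x ∈ Submodule.span ℂ {A l, A j} :=
            fun x => mem_of_Pts hA hS hcon.2 ((hmem l).2 hcon.1) ((hmem j).2 hj) x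
          have h4 := (h3 l0).2 ((h2 l0).1 h1)
          exact (hmem l0).1 h4 rfl
      · left
        ext l
        have ha' : a ∈ S := (hmem a).2 (fun h0 => h1 (h0 ▸ ha))
        have hb' : b ∈ S := (hmem b).2 (fun h0 => h1 (h0 ▸ hb))
        rw [mem_of_Pts hA hS hab ha' hb', h]
    · rintro (rfl | ⟨j, hj, rfl⟩)
      · exact hS
      · have hjl : l0 ≠ j := fun h0 => (hmem j).1 hj h0.symm
        refine mem_Pts.2 ⟨l0, j, hjl, fun l => ?_⟩
        rw [mem_insert, mem_singleton]
        constructor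
        · rintro (rfl | rfl)
          · exact Submodule.subset_span (by simp)
          · exact Submodule.subset_span (by simp)
        · intro hl
          by_contra hcon
          push Not at hcon
          have hW := finrank_le_two (span_pair_ne_top hA hjl)
          have h2 := span_eq_of_mem hA hW hcon.2 hl (Submodule.subset_span (by simp))
          have h3 := (mem_of_Pts hA hS hcon.2 ((hmem l).2 hcon.1) hj l0).2 (by
            rw [h2]; exact Submodule.subset_span (by simp))
          exact (hmem l0).1 h3 rfl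
  have hnot : S ∉ S.image (fun j => ({l0, j} : Finset (Fin d))) := by
    intro h
    obtain ⟨j, _, hj⟩ := mem_image.1 h
    have : l0 ∈ S := by rw [← hj]; simp
    exact (hmem l0).1 this rfl
  have hinj : Set.InjOn (fun j => ({l0, j} : Finset (Fin d))) (S : Set (Fin d)) := by
    intro a ha b hb hab
    have ha' := (hmem a).1 ha
    have hb' := (hmem b).1 hb
    simp only at hab
    have h1 : a ∈ ({l0, b} : Finset (Fin d)) := by rw [← hab]; simp
    rw [mem_insert, mem_singleton] at h1
    rcases h1 with h1 | h1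
    · exact absurd h1 ha'
    · exact h1
  rw [hPts, sum_insert hnot, sum_image hinj]
  have h2 : ∀ j ∈ S, F (({l0, j} : Finset (Fin d))).card = F 2 := by
    intro j hj
    rw [card_pair]
    exact fun h0 => (hmem j).1 hj h0.symm
  rw [sum_congr rfl h2, sum_const, nsmul_eq_mul]
  have h3 : S.card = d - 1 := by omega
  rw [h3]

/-- The other arrangements span and are indecomposable. -/
lemma conn_of_not_near {A : Fin d → Fin 3 → ℂ}
    (hA : ∀ i j, i ≠ j → LinearIndependent ℂ ![A i, A j]) (hd : 2 ≤ d)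
    (hP : ∀ S ∈ Pts A, S.card + 2 ≤ d) :
    Submodule.span ℂ (Set.range A) = ⊤ ∧ Conn (k := ℂ) A ∧ 4 ≤ d := by
  classical
  have h01 : (⟨0, by omega⟩ : Fin d) ≠ ⟨1, by omega⟩ := by
    intro h; simp at h
  have hne : ∀ i, A i ≠ 0 := by
    intro i
    obtain ⟨j, hj⟩ : ∃ j, j ≠ i := by
      by_cases h : i = ⟨0, by omega⟩
      · exact ⟨⟨1, by omega⟩, by rw [h]; exact h01.symm⟩
      · exact ⟨⟨0, by omega⟩, fun h' => h h'.symm⟩
    exact (hA i j (Ne.symm hj)).ne_zero 0
  -- a proper subspace contains at most `d - 2` of the forms, if it contains two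
  have hcount : ∀ (W : Submodule ℂ (Fin 3 → ℂ)) (s : Finset (Fin d)), W ≠ ⊤ →
      (∀ l ∈ s, A l ∈ W) → 2 ≤ s.card → s.card + 2 ≤ d := by
    intro W s hW hs hcard
    obtain ⟨i, hi, j, hj, hij⟩ := one_lt_card.1 (by omega : 1 < s.card)
    have h1 := span_eq_of_mem hA (finrank_le_two hW) hij (hs i hi) (hs j hj)
    have h2 := hP _ (filter_mem_Pts (A := A) hij)
    have h3 : s ⊆ Finset.univ.filter (fun l => A l ∈ Submodule.span ℂ {A i, A j}) := by
      intro l hl
      rw [mem_filter, h1]
      exact ⟨mem_univ _, hs l hl⟩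
    have := card_le_card h3
    omega
  have h4 : 4 ≤ d := by
    have h1 := filter_mem_Pts (A := A) h01
    have h2 := hP _ h1
    have h3 := two_le_card h1
    omega
  refine ⟨?_, ?_, h4⟩
  · by_contra hcon
    have := hcount _ Finset.univ hcon (fun l _ => Submodule.subset_span ⟨l, rfl⟩) (by
      rw [card_univ, Fintype.card_fin]; omega)
    rw [card_univ, Fintype.card_fin] at this
    omega
  · intro s hs hs' hdis
    set t : Finset (Fin d) := Finset.univ.filter (fun l => l ∈ s) with ht
    have htc : ∀ l, l ∈ tᶜ ↔ l ∈ sᶜ := by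
      intro l
      rw [mem_compl, ht, mem_filter]
      simp
    have htm : ∀ l, l ∈ t ↔ l ∈ s := by
      intro l
      rw [ht, mem_filter]
      simp
    have hcardsum : t.card + tᶜ.card = d := by
      rw [card_add_card_compl, Fintype.card_fin]
    have ht1 : 1 ≤ t.card := by
      obtain ⟨a, ha⟩ := hs
      exact card_pos.2 ⟨a, (htm a).2 ha⟩
    have ht2 : 1 ≤ tᶜ.card := by
      obtain ⟨a, ha⟩ := hs'
      exact card_pos.2 ⟨a, (htc a).2 ha⟩
    have hsumrank := Submodule.finrank_add_finrank_le_of_disjoint hdis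
    rw [Module.finrank_fin_fun] at hsumrank
    -- the ranks
    have hr : ∀ (u : Set (Fin d)) (v : Finset (Fin d)), (∀ l, l ∈ v ↔ l ∈ u) → 2 ≤ v.card →
        2 ≤ Module.finrank ℂ (Submodule.span ℂ (A '' u)) := by
      intro u v huv hv
      obtain ⟨i, hi, j, hj, hij⟩ := one_lt_card.1 (by omega : 1 < v.card)
      rw [← finrank_pair (hA i j hij)]
      refine Submodule.finrank_mono (Submodule.span_mono ?_)
      rintro x (rfl | rfl)
      · exact ⟨i, (huv i).1 hi, rfl⟩
      · exact ⟨j, (huv j).1 hj, rfl⟩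
    have hr1 : ∀ (u : Set (Fin d)), u.Nonempty →
        1 ≤ Module.finrank ℂ (Submodule.span ℂ (A '' u)) := by
      rintro u ⟨a, ha⟩
      rw [Nat.succ_le_iff, Module.finrank_pos_iff]
      refine ⟨⟨⟨A a, Submodule.subset_span ⟨a, ha, rfl⟩⟩, 0, fun h => hne a ?_⟩⟩
      exact congrArg Subtype.val h
    have hrs := hr1 s hs
    have hrs' := hr1 sᶜ hs'
    have hcases : t.card + 1 = d ∨ tᶜ.card + 1 = d := by
      by_contra hcon
      push Not at hcon
      have h1 : 2 ≤ t.card := by omega
      have h2 : 2 ≤ tᶜ.card := by omega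
      have := hr s t htm h1
      have := hr sᶜ tᶜ htc h2
      omega
    rcases hcases with h1 | h1
    · have hW : Submodule.span ℂ (A '' s) ≠ ⊤ := by
        intro h
        rw [h, finrank_top, Module.finrank_fin_fun] at hsumrank
        omega
      have := hcount _ t hW (fun l hl => Submodule.subset_span ⟨l, (htm l).1 hl, rfl⟩) (by omega)
      omega
    · have hW : Submodule.span ℂ (A '' sᶜ) ≠ ⊤ := by
        intro h
        rw [h, finrank_top, Module.finrank_fin_fun] at hsumrank
        omega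
      have := hcount _ tᶜ hW (fun l hl => Submodule.subset_span ⟨l, (htc l).1 hl, rfl⟩) (by omega)
      omega

open Classical in
/-- The number of forms in a proper subspace. -/
lemma count_cases {A : Fin d → Fin 3 → ℂ}
    (hA : ∀ i j, i ≠ j → LinearIndependent ℂ ![A i, A j]) {W : Submodule ℂ (Fin 3 → ℂ)}
    (hW : W ≠ ⊤) (hex : ∃ i, A i ∈ W) :
    (Finset.univ.filter (fun l => A l ∈ W)).card = 1 ∨
      (Finset.univ.filter (fun l => A l ∈ W)) ∈ Pts A := by
  set s := Finset.univ.filter (fun l => A l ∈ W) with hs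
  have hmem : ∀ l, l ∈ s ↔ A l ∈ W := by
    intro l; rw [hs, mem_filter]; simp
  obtain ⟨i0, hi0⟩ := hex
  rcases Nat.lt_or_ge 1 s.card with h1 | h1
  · right
    obtain ⟨i, hi, j, hj, hij⟩ := one_lt_card.1 h1
    have h2 := span_eq_of_mem hA (finrank_le_two hW) hij ((hmem i).1 hi) ((hmem j).1 hj)
    refine mem_Pts.2 ⟨i, j, hij, fun l => ?_⟩
    rw [hmem, h2]
  · left
    have : 1 ≤ s.card := card_pos.2 ⟨i0, (hmem i0).2 hi0⟩
    omega

end Pool.Agent.helper67.LY
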