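import Mathlib
import Pool.Agent.helper67.LY.Comb

/-!
# The root `-3/d`: nonresonant arrangements; the root `-1`
-/

set_option autoImplicit false

namespace Pool.Agent.helper67.LY

open Finset MvPolynomial Filter Topology Asymptotics
open Pool.Agent.helper67.IF Pool.Agent.helper67.ND

variable {d : ℕ}

/-- The polynomial of the arrangement. -/
noncomputable def arr3 (A : Fin d → Fin 3 → ℂ) : MvPolynomial (Fin 3) ℂ :=
  ∏ l, (∑ j, C (A l j) * X j)

lemma arr3_eq (A : Fin d → Fin 3 → ℂ) : arrP A (fun _ => 1) = arr3 A := by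
  rw [arrP, arr3]
  simp only [pow_one]

lemma arr3_homog (A : Fin d → Fin 3 → ℂ) : (arr3 A).IsHomogeneous d := by
  have := arrP_homog A (fun _ => 1)
  rw [arr3_eq] at this
  simpa using this

lemma eval_arr3 (A : Fin d → Fin 3 → ℂ) (z : Fin 3 → ℂ) :
    eval z (arr3 A) = ∏ l, (∑ j, A l j * z j) := by
  simp [arr3]

/-- From the Stokes functional of the arrangement to the root `-3/d`. -/
theorem root_of_stokes (A : Fin d → Fin 3 → ℂ) (hst : HasStokes (arr3 A))
    {f : (Fin 3 → ℂ) → ℂ} (hf : AnalyticAt ℂ f 0)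
    (hO : (fun z => f z - ∏ l, (∑ j, A l j * z j)) =O[𝓝 0]
      (fun z : Fin 3 → ℂ => ‖z‖ ^ (d + 1)))
    {b : Polynomial ℂ} (hb : BFam f b) :
    b.eval (-3 / (d : ℂ)) = 0 := by
  have hhom : (arr3 A).IsWeightedHomogeneous (fun _ => 1) d := arr3_homog A
  have h := initial_form_fam (by norm_num) (a := fun _ : Fin 3 => 1) (fun _ => le_rfl) hf hhom
    (fun z => by
      have h1 := isBigO_scal (a := fun _ : Fin 3 => 1) (fun _ => le_rfl) hO z
      refine h1.congr_left fun t => ?_
      have h2 : ∏ i, (∑ j, A i j * (scal (fun _ : Fin 3 => 1) t z) j) =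
          t ^ d * eval z (arr3 A) := by
        rw [← eval_scal_homog hhom, eval_arr3]
      rw [h2]
      rfl) hst hb
  simpa using h

/-- **The nonresonant case.** -/
theorem root_gamma (A : Fin d → Fin 3 → ℂ)
    (hA : ∀ i j, i ≠ j → LinearIndependent ℂ ![A i, A j]) (hd : 2 ≤ d)
    (hP : ∀ S ∈ Pts A, S.card + 2 ≤ d) (hnr : ∀ S ∈ Pts A, 3 * S.card ≠ d ∧ 3 * S.card ≠ 2 * d)
    {f : (Fin 3 → ℂ) → ℂ} (hf : AnalyticAt ℂ f 0)
    (hO : (fun z => f z - ∏ l, (∑ j, A l j * z j)) =O[𝓝 0]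
      (fun z : Fin 3 → ℂ => ‖z‖ ^ (d + 1)))
    {b : Polynomial ℂ} (hb : BFam f b) :
    b.eval (-3 / (d : ℂ)) = 0 := by
  classical
  obtain ⟨hspan, hconn, hd4⟩ := conn_of_not_near hA hd hP
  refine root_of_stokes A ?_ hf hO hb
  have hne : ∀ i, A i ≠ 0 := by
    intro i
    obtain ⟨j, hj⟩ : ∃ j, j ≠ i := by
      by_cases h : i = ⟨0, by omega⟩
      · exact ⟨⟨1, by omega⟩, by rw [h]; intro h'; simp at h'⟩
      · exact ⟨⟨0, by omega⟩, fun h' => h h'.symm⟩
    exact (hA i j (Ne.symm hj)).ne_zero 0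
  rw [← arr3_eq]
  refine hasStokes_arr (by norm_num) A hne (fun _ => 1) (fun _ => le_rfl) hspan hconn ?_ ?_
  · simp; omega
  · intro W hW hex hdvd
    have h1 : ∑ i, (if A i ∈ W then (fun _ : Fin d => 1) i else 0) =
        (Finset.univ.filter (fun l => A l ∈ W)).card := by
      rw [card_filter]
    rw [h1] at hdvd
    have h2 : ∑ i : Fin d, (fun _ : Fin d => 1) i = d := by simp
    rw [h2] at hdvd
    rcases count_cases hA hW hex with h3 | h3
    · have h3' : (Finset.univ.filter (fun l => A l ∈ W)).card = 1 := by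
        convert h3
      rw [h3'] at hdvd
      have := Nat.le_of_dvd (by norm_num) hdvd
      omega
    · have h4 := hP _ h3
      have h5 := hnr _ h3
      have h6 := two_le_card h3
      have h7 : (Finset.univ.filter (fun l => A l ∈ W)).card =
        (@Finset.filter _ (fun l => A l ∈ W) (fun a => Classical.propDecidable _) Finset.univ).card := by
        convert rfl
      rw [h7] at hdvd
      obtain ⟨c, hc⟩ := hdvd
      have hc3 : c = 1 ∨ c = 2 := by
        have : c < 3 := by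
          by_contra hcon
          push Not at hcon
          have : d * 3 ≤ d * c := Nat.mul_le_mul_left d hcon
          omega
        have : c ≠ 0 := by
          rintro rfl
          omega
        omega
      rcases hc3 with rfl | rfl
      · exact h5.1 (by omega)
      · exact h5.2 (by omega)

/-! ### The root `-1` -/

lemma foldr_nabla_neg_one {n : ℕ} {f : (Fin n → ℂ) → ℂ} (w : List (Fin n)) (U : Set (Fin n → ℂ))
    (hU : IsOpen U) (hf : ∀ z ∈ U, f z ≠ 0) :
    ∀ z ∈ U, w.foldr (nabla f (-1)) f z = if w = [] then f z else 0 := by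
  induction w with
  | nil => intro z _; simp
  | cons i w ih =>
    intro z hz
    rw [if_neg (List.cons_ne_nil _ _), List.foldr_cons]
    unfold nabla
    have hz0 := hf z hz
    by_cases hw : w = []
    · subst hw
      simp only [List.foldr_nil]
      field_simp
      ring
    · have h1 : (w.foldr (nabla f (-1)) f) =ᶠ[𝓝 z] fun _ => 0 := by
        filter_upwards [hU.mem_nhds hz] with y hy
        rw [ih y hy, if_neg hw]
      have h2 := h1.eq_of_nhds
      have h3 : fderiv ℂ (w.foldr (nabla f (-1)) f) z = 0 := by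
        rw [h1.fderiv_eq]
        simp
      unfold nabla at h2 h3
      rw [h3, h2]
      simp

theorem eval_neg_one {n : ℕ} {f : (Fin n → ℂ) → ℂ} (hf : AnalyticAt ℂ f 0) (h0 : f 0 = 0)
    (hne : ∃ᶠ z in 𝓝 (0 : Fin n → ℂ), f z ≠ 0)
    (b : Polynomial ℂ) (hb : IsBernstein f b) : b.eval (-1) = 0 := by
  classical
  obtain ⟨T, a, ha, hev⟩ := hb
  have hNB : (𝓝 (0 : Fin n → ℂ) ⊓ 𝓟 {z | f z ≠ 0}).NeBot := by
    rw [← frequently_mem_iff_neBot]
    exact hne
  have hlim : Tendsto (fun z : Fin n → ℂ => ∑ t ∈ T, a t z * (-1) ^ t.2 *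
      (if t.1 = [] then f z else 0)) (𝓝 (0 : Fin n → ℂ) ⊓ 𝓟 {z | f z ≠ 0}) (𝓝 0) := by
    have h1 : Tendsto (fun z : Fin n → ℂ => ∑ t ∈ T, a t z * (-1) ^ t.2 *
      (if t.1 = [] then f z else 0)) (𝓝 (0 : Fin n → ℂ))
        (𝓝 (∑ t ∈ T, a t 0 * (-1) ^ t.2 * 0)) := by
      refine tendsto_finset_sum T fun t ht => ?_
      refine Tendsto.mul (((ha t ht).continuousAt.tendsto).mul_const _) ?_
      by_cases hw : t.1 = []
      · simp only [if_pos hw]
        have h2 := hf.continuousAt.tendsto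
        rwa [h0] at h2
      · simp only [if_neg hw]
        exact tendsto_const_nhds
    simp only [mul_zero, Finset.sum_const_zero] at h1
    exact h1.mono_left inf_le_left
  obtain ⟨V, hV, hVo, hV0⟩ := eventually_nhds_iff.1 (hf.eventually_analyticAt.mono
    (fun z hz => hz.continuousAt))
  have hlim2 : Tendsto (fun z : Fin n → ℂ => ∑ t ∈ T, a t z * (-1) ^ t.2 *
      (if t.1 = [] then f z else 0)) (𝓝 (0 : Fin n → ℂ) ⊓ 𝓟 {z | f z ≠ 0})
      (𝓝 (b.eval (-1))) := by
    refine Tendsto.congr' ?_ tendsto_const_nhds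
    have h4 : ∀ᶠ z in 𝓝 (0 : Fin n → ℂ) ⊓ 𝓟 {z | f z ≠ 0}, f z ≠ 0 := by
      exact mem_inf_of_right (mem_principal_self _)
    filter_upwards [hev.filter_mono inf_le_left, h4,
      (hVo.eventually_mem hV0).filter_mono inf_le_left] with z hz hz0 hzV
    rw [← hz hz0 (-1)]
    refine Finset.sum_congr rfl fun t _ => ?_
    have hcont : ContinuousOn f V := fun y hy => (hV y hy).continuousWithinAt
    have hopen : IsOpen (V ∩ f ⁻¹' {0}ᶜ) := hcont.isOpen_inter_preimage hVo isOpen_compl_singleton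
    rw [foldr_nabla_neg_one t.1 (V ∩ f ⁻¹' {0}ᶜ) hopen (fun y hy => hy.2) z ⟨hzV, hz0⟩]
  exact tendsto_nhds_unique hlim2 hlim

end Pool.Agent.helper67.LY
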