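import Mathlib
import Pool.Agent.helper67.LY.Gamma

/-!
# One-dimensional twisted cohomology, and products of two pencils
-/

set_option autoImplicit false

namespace Pool.Agent.helper67.LY

open Polynomial

section One

variable {H : ℂ[X]} {s : ℂ}

/-- Numerators of the twisted derivative of `p / H ^ k`. -/
noncomputable def Dn (H : ℂ[X]) (s : ℂ) (k : ℕ) (p : ℂ[X]) : ℂ[X] :=
  H * derivative p + C (s - k) * (derivative H * p)

lemma not_exact_zero (hH : IsCoprime H (derivative H)) (hs0 : s ≠ 0)
    (hdeg : 2 ≤ H.natDegree) (hs : ∀ D : ℕ, (D : ℂ) + (1 + s) * H.natDegree ≠ 0) (p : ℂ[X]) :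
    H * derivative p + C s * (derivative H * p) ≠ H := by
  intro h
  have hH0 : H ≠ 0 := by
    rintro rfl
    simp at hdeg
  have h1 : H ∣ p := by
    have h2 : H ∣ C s * (derivative H * p) := by
      have h3 : C s * (derivative H * p) = H * (1 - derivative p) := by
        linear_combination h
      exact ⟨_, h3⟩
    have h4 : H ∣ derivative H * p := by
      have h5 : derivative H * p = C s⁻¹ * (C s * (derivative H * p)) := by
        rw [← mul_assoc, ← C_mul, inv_mul_cancel₀ hs0, C_1, one_mul]
      rw [h5]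
      exact h2.mul_left _
    exact hH.dvd_of_dvd_mul_left h4
  obtain ⟨q, rfl⟩ := h1
  have h2 : H * derivative q + C (1 + s) * (derivative H * q) = 1 := by
    have h3 : H * (H * derivative q + C (1 + s) * (derivative H * q)) = H * 1 := by
      rw [derivative_mul] at h
      rw [C_add, C_1]
      linear_combination h
    exact mul_left_cancel₀ hH0 h3
  -- the leading coefficient
  have hq0 : q ≠ 0 := by
    rintro rfl
    simp at h2
  have hcoef : coeff (H * derivative q + C (1 + s) * (derivative H * q))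
      (H.natDegree + q.natDegree - 1) = coeff 1 (H.natDegree + q.natDegree - 1) := by rw [h2]
  have h5 : coeff (1 : ℂ[X]) (H.natDegree + q.natDegree - 1) = 0 := by
    rw [coeff_one, if_neg (by omega)]
  have h6 : coeff (H * derivative q) (H.natDegree + q.natDegree - 1) =
      H.leadingCoeff * (q.natDegree * q.leadingCoeff) := by
    rcases Nat.eq_zero_or_pos q.natDegree with h0 | h0
    · have : derivative q = 0 := by
        rw [eq_C_of_natDegree_eq_zero h0, derivative_C]
      rw [this, mul_zero, coeff_zero, h0]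
      simp
    · have e : H.natDegree + q.natDegree - 1 = H.natDegree + (q.natDegree - 1) := by omega
      have hle : (derivative q).natDegree ≤ q.natDegree - 1 := natDegree_derivative_le q
      rw [e, coeff_mul_add_eq_of_natDegree_le le_rfl hle, coeff_derivative]
      have e2 : q.natDegree - 1 + 1 = q.natDegree := by omega
      have e3 : ((q.natDegree - 1 : ℕ) : ℂ) + 1 = q.natDegree := by
        rw [Nat.cast_sub h0]; simp
      rw [e2, e3]
      simp only [leadingCoeff]
      ring
  have h7 : coeff (derivative H * q) (H.natDegree + q.natDegree - 1) =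
      H.natDegree * H.leadingCoeff * q.leadingCoeff := by
    have e : H.natDegree + q.natDegree - 1 = (H.natDegree - 1) + q.natDegree := by omega
    have hle : (derivative H).natDegree ≤ H.natDegree - 1 := natDegree_derivative_le H
    rw [e, coeff_mul_add_eq_of_natDegree_le hle le_rfl, coeff_derivative]
    have e2 : H.natDegree - 1 + 1 = H.natDegree := by omega
    have e3 : ((H.natDegree - 1 : ℕ) : ℂ) + 1 = H.natDegree := by
      rw [Nat.cast_sub (by omega)]; simp
    rw [e2, e3]
    simp only [leadingCoeff]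
    ring
  rw [coeff_add, coeff_C_mul, h5, h6, h7] at hcoef
  have h8 : ((q.natDegree : ℂ) + (1 + s) * H.natDegree) * (H.leadingCoeff * q.leadingCoeff) = 0 := by
    linear_combination hcoef
  rcases mul_eq_zero.1 h8 with h9 | h9
  · exact hs _ h9
  · rcases mul_eq_zero.1 h9 with h10 | h10
    · exact hH0 (leadingCoeff_eq_zero.1 h10)
    · exact hq0 (leadingCoeff_eq_zero.1 h10)

lemma not_exact (hH : IsCoprime H (derivative H)) (hsk : ∀ k : ℕ, s ≠ k)
    (hdeg : 2 ≤ H.natDegree) (hs : ∀ D : ℕ, (D : ℂ) + (1 + s) * H.natDegree ≠ 0) (k : ℕ) :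
    ∀ p : ℂ[X], Dn H s k p ≠ H ^ (k + 1) := by
  have hH0 : H ≠ 0 := by
    rintro rfl
    simp at hdeg
  induction k with
  | zero =>
    intro p
    have := not_exact_zero hH (by simpa using hsk 0) hdeg hs p
    simpa [Dn] using this
  | succ k ih =>
    intro p h
    have hne : s - (k + 1 : ℕ) ≠ 0 := sub_ne_zero.2 (hsk (k + 1))
    have h1 : H ∣ p := by
      have h2 : H ∣ C (s - (k + 1 : ℕ)) * (derivative H * p) := by
        have h3 : C (s - (k + 1 : ℕ)) * (derivative H * p) =
            H * (H ^ (k + 1) - derivative p) := by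
          unfold Dn at h
          linear_combination h
        exact ⟨_, h3⟩
      have h4 : H ∣ derivative H * p := by
        have h5 : derivative H * p = C (s - (k + 1 : ℕ))⁻¹ *
            (C (s - (k + 1 : ℕ)) * (derivative H * p)) := by
          rw [← mul_assoc, ← C_mul, inv_mul_cancel₀ hne, C_1, one_mul]
        rw [h5]
        exact h2.mul_left _
      exact hH.dvd_of_dvd_mul_left h4
    obtain ⟨q, rfl⟩ := h1
    refine ih q (mul_left_cancel₀ hH0 ?_)
    unfold Dn at h ⊢
    have e : C (s - (k : ℂ)) = C (s - ((k + 1 : ℕ) : ℂ)) + 1 := by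
      rw [← C_1, ← C_add]; congr 1; push_cast; ring
    rw [derivative_mul] at h
    rw [e]
    linear_combination h

/-- **The functional in dimension one.** -/
theorem exists_one (hH : IsCoprime H (derivative H)) (hsk : ∀ k : ℕ, s ≠ k)
    (hdeg : 2 ≤ H.natDegree) (hs : ∀ D : ℕ, (D : ℂ) + (1 + s) * H.natDegree ≠ 0) :
    ∃ A : ℕ → ℂ[X] →ₗ[ℂ] ℂ, (∀ m p, A (m + 1) (H * p) = A m p) ∧
      (∀ m p, A (m + 1) (Dn H s m p) = 0) ∧ A 0 1 ≠ 0 := by
  have hH0 : H ≠ 0 := by
    rintro rfl
    simp at hdeg
  set ι : ℂ[X] →+* RatFunc ℂ := algebraMap ℂ[X] (RatFunc ℂ) with hι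
  have hιH : ι H ≠ 0 := by
    rw [hι, Ne, map_eq_zero_iff _ (RatFunc.algebraMap_injective ℂ)]
    exact hH0
  have hinj : Function.Injective ι := RatFunc.algebraMap_injective ℂ
  set E : ℕ → ℂ[X] → RatFunc ℂ := fun k p => ι (Dn H s k p) / ι H ^ (k + 1) with hE
  have hadd : ∀ k p q, E k (p + q) = E k p + E k q := by
    intro k p q
    simp only [hE]
    rw [← add_div, ← map_add]
    congr 2
    unfold Dn
    rw [derivative_add]; ring
  have hsmul : ∀ k (c : ℂ) p, E k (c • p) = c • E k p := by
    intro k c p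
    simp only [hE]
    have h1 : Dn H s k (c • p) = C c * Dn H s k p := by
      unfold Dn
      rw [smul_eq_C_mul, derivative_C_mul]; ring
    rw [h1, map_mul, mul_div_assoc]
    have h2 : ι (C c) = algebraMap ℂ (RatFunc ℂ) c := by
      rw [hι, ← Polynomial.algebraMap_eq, ← IsScalarTower.algebraMap_apply]
    rw [h2, Algebra.smul_def]
  have hshift : ∀ k j p, E k p = E (k + j) (p * H ^ j) := by
    intro k j p
    simp only [hE]
    have h1 : Dn H s (k + j) (p * H ^ j) = H ^ j * Dn H s k p := by
      unfold Dn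
      rw [derivative_mul, derivative_pow]
      rcases Nat.eq_zero_or_pos j with rfl | hj
      · simp
      · have e : H ^ j = H * H ^ (j - 1) := by
          rw [← pow_succ']; congr 1; omega
        have e2 : C (s - ((k + j : ℕ) : ℂ)) = C (s - (k : ℂ)) - C (j : ℂ) := by
          rw [← C_sub]; congr 1; push_cast; ring
        rw [e2, e]
        simp only [map_natCast]
        ring
    have e3 : ι H ^ (k + j + 1) = ι H ^ j * ι H ^ (k + 1) := by
      rw [← pow_add]; congr 1; ring
    rw [h1, map_mul, map_pow, e3, mul_div_mul_left _ _ (pow_ne_zero _ hιH)]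
  set Im : Submodule ℂ (RatFunc ℂ) :=
    { carrier := {y | ∃ k p, y = E k p}
      add_mem' := by
        rintro _ _ ⟨k, p, rfl⟩ ⟨l, q, rfl⟩
        refine ⟨k + l, p * H ^ l + q * H ^ k, ?_⟩
        rw [hadd, ← hshift, add_comm k l, ← hshift]
      zero_mem' := ⟨0, 0, by simp [hE, Dn]⟩
      smul_mem' := by
        rintro c _ ⟨k, p, rfl⟩
        exact ⟨k, c • p, (hsmul k c p).symm⟩ } with hIm
  have h1 : (1 : RatFunc ℂ) ∉ Im := by
    rintro ⟨k, p, h⟩
    simp only [hE] at h
    rw [eq_div_iff (pow_ne_zero _ hιH), one_mul, ← map_pow] at h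
    exact not_exact hH hsk hdeg hs k p (hinj h).symm
  obtain ⟨φ, hφ1, hφ⟩ := Submodule.exists_le_ker_of_notMem h1
  have hlin : ∀ (m : ℕ), ∃ A : ℂ[X] →ₗ[ℂ] ℂ, ∀ p, A p = φ (ι p / ι H ^ m) := by
    intro m
    refine ⟨{ toFun := fun p => φ (ι p / ι H ^ m)
              map_add' := fun p q => by rw [map_add, add_div, map_add]
              map_smul' := fun c p => ?_ }, fun p => rfl⟩
    have h2 : ι (c • p) / ι H ^ m = c • (ι p / ι H ^ m) := by
      rw [smul_eq_C_mul, map_mul, mul_div_assoc]
      have h2 : ι (C c) = algebraMap ℂ (RatFunc ℂ) c := by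
        rw [hι, ← Polynomial.algebraMap_eq, ← IsScalarTower.algebraMap_apply]
      rw [h2, Algebra.smul_def]
    rw [h2, map_smul, RingHom.id_apply]
  choose A hA using hlin
  refine ⟨A, fun m p => ?_, fun m p => ?_, ?_⟩
  · rw [hA, hA, map_mul, pow_succ', mul_div_mul_left _ _ hιH]
  · rw [hA]
    exact hφ ⟨m, p, rfl⟩
  · rw [hA, map_one, pow_zero, div_one]
    exact hφ1

end One

/-! ### From affine functionals to Stokes functionals -/

section Aff

open MvPolynomial Pool.Agent.helper67.IF

variable {n : ℕ}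

open Classical in
/-- Stokes functionals from functionals on numerators. -/
theorem hasStokes_of_L {σ : Type} [Fintype σ] (ν : ℂ) {d : ℕ} (hd : 2 ≤ d)
    {f : MvPolynomial σ ℂ} (hfh : f.IsHomogeneous d)
    (L : ℕ → MvPolynomial σ ℂ →ₗ[ℂ] ℂ)
    (hL1 : ∀ m p, L (m + 1) (f * p) = L m p)
    (hL2 : ∀ (i : σ) (m : ℕ) (p : MvPolynomial σ ℂ), p.IsHomogeneous (d * m + 1) →
      L (m + 1) (f * pderiv i p + MvPolynomial.C (- ν / d - m) * (pderiv i f * p)) = 0)
    (hL3 : L 0 1 ≠ 0) : HasStokes f := by
  have hdC : (d : ℂ) ≠ 0 := by exact_mod_cast (by omega : d ≠ 0)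
  set s : ℂ := ν / d with hs
  set c : ℕ → ℂ := fun m => ∏ j ∈ Finset.range m, ((j : ℂ) + s) with hc
  have hcs : ∀ m, c (m + 1) = c m * ((m : ℂ) + s) := fun m => Finset.prod_range_succ _ _
  set g : (σ →₀ ℕ) → ℂ := fun u =>
    if d ∣ u.degree then c (u.degree / d) * L (u.degree / d) (MvPolynomial.monomial u 1) else 0
    with hg
  have hval : ∀ (φ : MvPolynomial σ ℂ) (e : ℕ), φ.IsHomogeneous e →
      LM g φ = if d ∣ e then c (e / d) * L (e / d) φ else 0 := by
    intro φ e hφ
    have hdeg : ∀ v ∈ φ.support, v.degree = e := fun v hv => by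
      rw [Finsupp.degree_eq_weight_one]
      exact hφ (MvPolynomial.mem_support_iff.1 hv)
    have h1 : LM g φ = ∑ v ∈ φ.support, MvPolynomial.coeff v φ *
        (if d ∣ e then c (e / d) * L (e / d) (MvPolynomial.monomial v 1) else 0) := by
      conv_lhs => rw [φ.as_sum]
      rw [map_sum]
      refine Finset.sum_congr rfl fun v hv => ?_
      rw [LM_monomial]
      simp only [hg]
      rw [hdeg v hv]
    rw [h1]
    by_cases hde : d ∣ e
    · simp only [if_pos hde]
      have h2 : L (e / d) φ = ∑ v ∈ φ.support, MvPolynomial.coeff v φ *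
          L (e / d) (MvPolynomial.monomial v 1) := by
        conv_lhs => rw [φ.as_sum]
        rw [map_sum]
        refine Finset.sum_congr rfl fun v _ => ?_
        have e1 : (MvPolynomial.monomial v (MvPolynomial.coeff v φ) : MvPolynomial σ ℂ) =
            MvPolynomial.coeff v φ • MvPolynomial.monomial v 1 := by
          rw [MvPolynomial.smul_monomial, smul_eq_mul, mul_one]
        rw [e1, map_smul, smul_eq_mul]
      rw [h2, Finset.mul_sum]
      exact Finset.sum_congr rfl fun v _ => by ring
    · simp only [if_neg hde, mul_zero, Finset.sum_const_zero]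
  refine hasStokes_of_monomial _ (LM g) ?_ ?_
  · intro i u
    set φ : MvPolynomial σ ℂ := MvPolynomial.monomial u 1 with hφ
    have hφh : φ.IsHomogeneous u.degree := isHomogeneous_monomial 1 rfl
    set e := u.degree with he
    have h2 : (φ * pderiv i f).IsHomogeneous (e + (d - 1)) := hφh.mul (hfh.pderiv)
    rw [hval _ (e - 1) hφh.pderiv, hval _ (e + (d - 1)) h2]
    rcases Nat.eq_zero_or_pos e with he0 | he0
    · have hφ1 : pderiv i φ = 0 := by
        rw [hφ, pderiv_monomial]
        have hui : u i = 0 := by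
          have h3 : u.degree = 0 := he0
          rw [Finsupp.degree_eq_zero_iff] at h3
          rw [h3]; rfl
        rw [hui]; simp
      rw [hφ1, map_zero, mul_zero, ite_self, he0, zero_add, if_neg]
      intro h3
      have := Nat.le_of_dvd (by omega) h3
      omega
    · by_cases hde : d ∣ e - 1
      · obtain ⟨m, hm⟩ := hde
        have e1 : e + (d - 1) = d * (m + 1) := by
          rw [Nat.mul_succ, ← hm]; omega
        rw [hm, e1, if_pos (Dvd.intro _ rfl), if_pos (Dvd.intro _ rfl),
          Nat.mul_div_cancel_left _ (by omega), Nat.mul_div_cancel_left _ (by omega), hcs]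
        have hφh' : φ.IsHomogeneous (d * m + 1) := by
          have : e = d * m + 1 := by omega
          rw [← this]; exact hφh
        have h4 := hL2 i m φ hφh'
        rw [map_add, hL1] at h4
        have h6 : MvPolynomial.C (-ν / d - m) * (pderiv i f * φ) =
            (-((m : ℂ) + s)) • (φ * pderiv i f) := by
          have h7 : -ν / d - m = -((m : ℂ) + s) := by rw [hs]; ring
          rw [MvPolynomial.smul_eq_C_mul, h7]; ring
        rw [h6, map_smul, smul_eq_mul] at h4
        linear_combination (c m) * h4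
      · have hde' : ¬ d ∣ e + (d - 1) := by
          intro h3
          apply hde
          have e2 : e + (d - 1) = (e - 1) + d := by omega
          rw [e2] at h3
          exact (Nat.dvd_add_self_right).1 h3
        rw [if_neg hde, if_neg hde']
  · rw [hval 1 0 (isHomogeneous_one _ _), if_pos (dvd_zero _), Nat.zero_div]
    simp only [hc, Finset.range_zero, Finset.prod_empty, one_mul]
    exact hL3

end Aff

/-! ### Products of two pencils -/

section Prod

open MvPolynomial Pool.Agent.helper67.IF

/-- the product functional on polynomials in two variables -/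
noncomputable def TT (A B : ℂ[X] →ₗ[ℂ] ℂ) : MvPolynomial (Fin 2) ℂ →ₗ[ℂ] ℂ :=
  LM fun u => A (Polynomial.X ^ u 0) * B (Polynomial.X ^ u 1)

lemma TT_prod (A B : ℂ[X] →ₗ[ℂ] ℂ) (p q : ℂ[X]) :
    TT A B (Polynomial.aeval (MvPolynomial.X 0) p * Polynomial.aeval (MvPolynomial.X 1) q) =
      A p * B q := by
  induction p using Polynomial.induction_on' with
  | add p p' hp hp' => rw [map_add, add_mul, map_add, hp, hp', map_add, add_mul]
  | monomial i a =>
    induction q using Polynomial.induction_on' with
    | add q q' hq hq' => rw [map_add, mul_add, map_add, hq, hq', map_add, mul_add]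
    | monomial j b =>
      rw [Polynomial.aeval_monomial, Polynomial.aeval_monomial]
      have h0 : (algebraMap ℂ (MvPolynomial (Fin 2) ℂ) a * MvPolynomial.X 0 ^ i) =
          MvPolynomial.monomial (Finsupp.single 0 i) a := MvPolynomial.C_mul_X_pow_eq_monomial
      have h1 : (algebraMap ℂ (MvPolynomial (Fin 2) ℂ) b * MvPolynomial.X 1 ^ j) =
          MvPolynomial.monomial (Finsupp.single 1 j) b := MvPolynomial.C_mul_X_pow_eq_monomial
      rw [h0, h1, MvPolynomial.monomial_mul, TT, LM_monomial]
      have e1 : (Polynomial.monomial i a : ℂ[X]) = a • Polynomial.X ^ i := by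
        rw [← Polynomial.C_mul_X_pow_eq_monomial, Polynomial.smul_eq_C_mul]
      have e2 : (Polynomial.monomial j b : ℂ[X]) = b • Polynomial.X ^ j := by
        rw [← Polynomial.C_mul_X_pow_eq_monomial, Polynomial.smul_eq_C_mul]
      rw [e1, e2, map_smul, map_smul]
      simp
      ring

/-- dehomogenization -/
noncomputable def dh : MvPolynomial (Fin 3) ℂ →ₐ[ℂ] MvPolynomial (Fin 2) ℂ :=
  MvPolynomial.aeval ![MvPolynomial.X 0, MvPolynomial.X 1, 1]

lemma dh_C (a : ℂ) : dh (MvPolynomial.C a) = MvPolynomial.C a := by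
  rw [dh, MvPolynomial.aeval_C]; rfl

lemma dh_X0 : dh (MvPolynomial.X 0) = MvPolynomial.X 0 := by
  rw [dh, MvPolynomial.aeval_X]; rfl

lemma dh_X1 : dh (MvPolynomial.X 1) = MvPolynomial.X 1 := by
  rw [dh, MvPolynomial.aeval_X]; rfl

lemma dh_X2 : dh (MvPolynomial.X 2) = 1 := by
  rw [dh, MvPolynomial.aeval_X]; rfl

lemma pderiv_dh0 (p : MvPolynomial (Fin 3) ℂ) : pderiv 0 (dh p) = dh (pderiv 0 p) := by
  induction p using MvPolynomial.induction_on with
  | C a => rw [dh_C, pderiv_C, pderiv_C, map_zero]
  | add p q hp hq => simp only [map_add, hp, hq]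
  | mul_X p i hp =>
    rw [map_mul, Derivation.leibniz, Derivation.leibniz, hp]
    simp only [smul_eq_mul, map_add, map_mul]
    congr 2
    fin_cases i
    · simp [dh_X0]
    · simp [dh_X1]
    · simp [dh_X2]

lemma pderiv_dh1 (p : MvPolynomial (Fin 3) ℂ) : pderiv 1 (dh p) = dh (pderiv 1 p) := by
  induction p using MvPolynomial.induction_on with
  | C a => rw [dh_C, pderiv_C, pderiv_C, map_zero]
  | add p q hp hq => simp only [map_add, hp, hq]
  | mul_X p i hp =>
    rw [map_mul, Derivation.leibniz, Derivation.leibniz, hp]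
    simp only [smul_eq_mul, map_add, map_mul]
    congr 2
    fin_cases i
    · simp [dh_X0]
    · simp [dh_X1]
    · simp [dh_X2]

lemma dh_pderiv2 {p : MvPolynomial (Fin 3) ℂ} {e : ℕ} (hp : p.IsHomogeneous e) :
    dh (pderiv 2 p) = MvPolynomial.C (e : ℂ) * dh p - MvPolynomial.X 0 * pderiv 0 (dh p) -
      MvPolynomial.X 1 * pderiv 1 (dh p) := by
  have h := congrArg dh hp.sum_X_mul_pderiv
  rw [Fin.sum_univ_three, map_add, map_add, map_mul, map_mul, map_mul, dh_X0, dh_X1, dh_X2,
    ← pderiv_dh0, ← pderiv_dh1, one_mul, map_nsmul, nsmul_eq_mul] at h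
  rw [map_natCast]
  linear_combination h

lemma monomial_two (u : Fin 2 →₀ ℕ) (a : ℂ) : (MvPolynomial.monomial u a : MvPolynomial (Fin 2) ℂ) =
    a • (Polynomial.aeval (MvPolynomial.X 0) (Polynomial.X ^ u 0 : ℂ[X]) *
      Polynomial.aeval (MvPolynomial.X 1) (Polynomial.X ^ u 1 : ℂ[X])) := by
  rw [map_pow, map_pow, Polynomial.aeval_X, Polynomial.aeval_X, MvPolynomial.monomial_eq,
    Finsupp.prod_fintype _ _ (fun i => by simp), Fin.prod_univ_two, MvPolynomial.smul_eq_C_mul]

lemma pderiv_aeval_self (i : Fin 2) (p : ℂ[X]) :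
    pderiv i (Polynomial.aeval (MvPolynomial.X i : MvPolynomial (Fin 2) ℂ) p) =
      Polynomial.aeval (MvPolynomial.X i) (derivative p) := by
  induction p using Polynomial.induction_on' with
  | add p p' hp hp' => simp only [map_add, hp, hp']
  | monomial k a =>
    rw [Polynomial.aeval_monomial, Derivation.leibniz, MvPolynomial.algebraMap_eq, pderiv_C,
      smul_zero, add_zero, Derivation.leibniz_pow, pderiv_X_self, derivative_monomial,
      Polynomial.aeval_monomial, MvPolynomial.algebraMap_eq, smul_eq_mul, nsmul_eq_mul,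
      smul_eq_mul, mul_one, map_mul, map_natCast]
    ring

lemma pderiv_aeval_ne {i j : Fin 2} (hij : i ≠ j) (p : ℂ[X]) :
    pderiv i (Polynomial.aeval (MvPolynomial.X j : MvPolynomial (Fin 2) ℂ) p) = 0 := by
  induction p using Polynomial.induction_on' with
  | add p p' hp hp' => simp only [map_add, hp, hp', add_zero]
  | monomial k a =>
    rw [Polynomial.aeval_monomial, Derivation.leibniz, MvPolynomial.algebraMap_eq, pderiv_C,
      smul_zero, add_zero, Derivation.leibniz_pow, pderiv_X_of_ne (Ne.symm hij)]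
    simp

/-- **Products of two pencils with a common line.** -/
theorem hasStokes_aff {d : ℕ} (hd : 2 ≤ d) {F : MvPolynomial (Fin 3) ℂ} (hF : F.IsHomogeneous d)
    {H1 H2 : ℂ[X]} (hFH : dh F = Polynomial.aeval (MvPolynomial.X 0) H1 *
      Polynomial.aeval (MvPolynomial.X 1) H2)
    (A B : ℕ → ℂ[X] →ₗ[ℂ] ℂ)
    (hA1 : ∀ m p, A (m + 1) (H1 * p) = A m p)
    (hA2 : ∀ m p, A (m + 1) (Dn H1 (-3 / (d : ℂ)) m p) = 0) (hA3 : A 0 1 ≠ 0)
    (hB1 : ∀ m p, B (m + 1) (H2 * p) = B m p)
    (hB2 : ∀ m p, B (m + 1) (Dn H2 (-3 / (d : ℂ)) m p) = 0) (hB3 : B 0 1 ≠ 0) :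
    HasStokes F := by
  have hdC : (d : ℂ) ≠ 0 := by exact_mod_cast (by omega : d ≠ 0)
  set x : MvPolynomial (Fin 2) ℂ := MvPolynomial.X 0 with hx
  set y : MvPolynomial (Fin 2) ℂ := MvPolynomial.X 1 with hy
  set s : ℂ := -3 / (d : ℂ) with hs
  set T : ℕ → MvPolynomial (Fin 2) ℂ →ₗ[ℂ] ℂ := fun m => TT (A m) (B m) with hT
  have hT1 : ∀ m p, T (m + 1) (dh F * p) = T m p := by
    intro m p
    induction p using MvPolynomial.induction_on' with
    | add p q hp hq => rw [mul_add, map_add, hp, hq, map_add]
    | monomial u a =>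
      rw [monomial_two, mul_smul_comm, map_smul, map_smul]
      congr 1
      rw [hFH]
      have e : Polynomial.aeval x H1 * Polynomial.aeval y H2 *
          (Polynomial.aeval x (Polynomial.X ^ u 0 : ℂ[X]) *
            Polynomial.aeval y (Polynomial.X ^ u 1 : ℂ[X])) =
          Polynomial.aeval x (H1 * Polynomial.X ^ u 0) *
            Polynomial.aeval y (H2 * Polynomial.X ^ u 1) := by
        rw [map_mul, map_mul]; ring
      rw [e]
      simp only [hT]
      rw [TT_prod, TT_prod, hA1, hB1]
  have hT2 : ∀ m p, T (m + 1) (dh F * pderiv 0 p +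
      MvPolynomial.C (s - m) * (pderiv 0 (dh F) * p)) = 0 := by
    intro m p
    induction p using MvPolynomial.induction_on' with
    | add p q hp hq =>
      rw [map_add (pderiv 0)]
      have e : dh F * (pderiv 0 p + pderiv 0 q) +
          MvPolynomial.C (s - m) * (pderiv 0 (dh F) * (p + q)) =
          (dh F * pderiv 0 p + MvPolynomial.C (s - m) * (pderiv 0 (dh F) * p)) +
          (dh F * pderiv 0 q + MvPolynomial.C (s - m) * (pderiv 0 (dh F) * q)) := by ring
      rw [e, map_add, hp, hq, add_zero]
    | monomial u a =>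
      rw [monomial_two, Derivation.map_smul, mul_smul_comm, mul_smul_comm, mul_smul_comm,
        ← smul_add, map_smul]
      have e : dh F * pderiv 0 (Polynomial.aeval x (Polynomial.X ^ u 0 : ℂ[X]) *
            Polynomial.aeval y (Polynomial.X ^ u 1 : ℂ[X])) +
          MvPolynomial.C (s - m) * (pderiv 0 (dh F) *
            (Polynomial.aeval x (Polynomial.X ^ u 0 : ℂ[X]) *
            Polynomial.aeval y (Polynomial.X ^ u 1 : ℂ[X]))) =
          Polynomial.aeval x (Dn H1 s m (Polynomial.X ^ u 0)) *
            Polynomial.aeval y (H2 * Polynomial.X ^ u 1) := by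
        rw [hFH, Derivation.leibniz, Derivation.leibniz, hx, pderiv_aeval_self, pderiv_aeval_self,
          hy, pderiv_aeval_ne (by decide), pderiv_aeval_ne (by decide), Dn]
        simp only [smul_eq_mul, map_add, map_mul, Polynomial.aeval_C, MvPolynomial.algebraMap_eq]
        ring
      rw [e]
      simp only [hT]
      rw [TT_prod, hA2, zero_mul, smul_zero]
  have hT3 : ∀ m p, T (m + 1) (dh F * pderiv 1 p +
      MvPolynomial.C (s - m) * (pderiv 1 (dh F) * p)) = 0 := by
    intro m p
    induction p using MvPolynomial.induction_on' with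
    | add p q hp hq =>
      rw [map_add (pderiv 1)]
      have e : dh F * (pderiv 1 p + pderiv 1 q) +
          MvPolynomial.C (s - m) * (pderiv 1 (dh F) * (p + q)) =
          (dh F * pderiv 1 p + MvPolynomial.C (s - m) * (pderiv 1 (dh F) * p)) +
          (dh F * pderiv 1 q + MvPolynomial.C (s - m) * (pderiv 1 (dh F) * q)) := by ring
      rw [e, map_add, hp, hq, add_zero]
    | monomial u a =>
      rw [monomial_two, Derivation.map_smul, mul_smul_comm, mul_smul_comm, mul_smul_comm,
        ← smul_add, map_smul]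
      have e : dh F * pderiv 1 (Polynomial.aeval x (Polynomial.X ^ u 0 : ℂ[X]) *
            Polynomial.aeval y (Polynomial.X ^ u 1 : ℂ[X])) +
          MvPolynomial.C (s - m) * (pderiv 1 (dh F) *
            (Polynomial.aeval x (Polynomial.X ^ u 0 : ℂ[X]) *
            Polynomial.aeval y (Polynomial.X ^ u 1 : ℂ[X]))) =
          Polynomial.aeval x (H1 * Polynomial.X ^ u 0) *
            Polynomial.aeval y (Dn H2 s m (Polynomial.X ^ u 1)) := by
        rw [hFH, Derivation.leibniz, Derivation.leibniz, hy, pderiv_aeval_self, pderiv_aeval_self,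
          hx, pderiv_aeval_ne (by decide), pderiv_aeval_ne (by decide), Dn]
        simp only [smul_eq_mul, map_add, map_mul, Polynomial.aeval_C, MvPolynomial.algebraMap_eq]
        ring
      rw [e]
      simp only [hT]
      rw [TT_prod, hB2, mul_zero, smul_zero]
  refine hasStokes_of_L 3 hd hF (fun m => T m ∘ₗ dh.toLinearMap) ?_ ?_ ?_
  · intro m p
    simp only [LinearMap.comp_apply, AlgHom.toLinearMap_apply, map_mul]
    exact hT1 m (dh p)
  · intro i m p hp
    simp only [LinearMap.comp_apply, AlgHom.toLinearMap_apply]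
    rw [map_add, map_mul, map_mul, map_mul, dh_C]
    fin_cases i
    · change T (m + 1) (dh F * dh (pderiv 0 p) + MvPolynomial.C (s - m) *
        (dh (pderiv 0 F) * dh p)) = 0
      rw [← pderiv_dh0, ← pderiv_dh0]
      exact hT2 m (dh p)
    · change T (m + 1) (dh F * dh (pderiv 1 p) + MvPolynomial.C (s - m) *
        (dh (pderiv 1 F) * dh p)) = 0
      rw [← pderiv_dh1, ← pderiv_dh1]
      exact hT3 m (dh p)
    · change T (m + 1) (dh F * dh (pderiv 2 p) + MvPolynomial.C (s - m) *
        (dh (pderiv 2 F) * dh p)) = 0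
      rw [dh_pderiv2 hp, dh_pderiv2 hF]
      have h2 := hT2 m (x * dh p)
      have h3 := hT3 m (y * dh p)
      have e0 : pderiv 0 (x * dh p) = dh p + x * pderiv 0 (dh p) := by
        rw [Derivation.leibniz, hx, pderiv_X_self]
        simp only [smul_eq_mul, mul_one]; ring
      have e1 : pderiv 1 (y * dh p) = dh p + y * pderiv 1 (dh p) := by
        rw [Derivation.leibniz, hy, pderiv_X_self]
        simp only [smul_eq_mul, mul_one]; ring
      rw [e0] at h2
      rw [e1] at h3
      have key : dh F * (MvPolynomial.C ((d * m + 1 : ℕ) : ℂ) * dh p - MvPolynomial.X 0 *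
          pderiv 0 (dh p) - MvPolynomial.X 1 * pderiv 1 (dh p)) + MvPolynomial.C (s - m) *
          ((MvPolynomial.C (d : ℂ) * dh F - MvPolynomial.X 0 * pderiv 0 (dh F) -
            MvPolynomial.X 1 * pderiv 1 (dh F)) * dh p) =
          -(dh F * (dh p + x * pderiv 0 (dh p)) +
            MvPolynomial.C (s - m) * (pderiv 0 (dh F) * (x * dh p))) -
          (dh F * (dh p + y * pderiv 1 (dh p)) +
            MvPolynomial.C (s - m) * (pderiv 1 (dh F) * (y * dh p))) := by
        have h5 : (MvPolynomial.C ((d * m + 1 : ℕ) : ℂ) : MvPolynomial (Fin 2) ℂ) +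
            MvPolynomial.C (s - m) * MvPolynomial.C (d : ℂ) = -2 := by
          rw [← MvPolynomial.C_mul, ← MvPolynomial.C_add]
          have : ((d * m + 1 : ℕ) : ℂ) + (s - m) * d = -2 := by
            rw [hs]; push_cast; field_simp; ring
          rw [this, map_neg, map_ofNat]
        linear_combination (dh F * dh p) * h5
      rw [key, map_sub, map_neg, h2, h3]
      simp
  · simp only [LinearMap.comp_apply, AlgHom.toLinearMap_apply, map_one]
    have e : (1 : MvPolynomial (Fin 2) ℂ) = Polynomial.aeval x (1 : ℂ[X]) *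
        Polynomial.aeval y (1 : ℂ[X]) := by rw [map_one, map_one, mul_one]
    rw [e]
    simp only [hT]
    rw [TT_prod]
    exact mul_ne_zero hA3 hB3

end Prod

end Pool.Agent.helper67.LY
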