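import Mathlib
import Pool.Agent.helper67.LY.One

/-!
# Two pencils with a common line
-/

set_option autoImplicit false

namespace Pool.Agent.helper67.LY

open Finset
open Pool.Agent.helper67.IF Pool.Agent.helper67.ND

lemma exists_fun {d : ℕ} (hd : 4 ≤ d) {ι : Type} (I : Finset ι) (a : ι → ℂ)
    (ha : Set.InjOn a (I : Set ι)) (hI : 2 ≤ I.card) :
    ∃ A : ℕ → Polynomial ℂ →ₗ[ℂ] ℂ,
      (∀ m p, A (m + 1) ((∏ i ∈ I, (Polynomial.X - Polynomial.C (a i))) * p) = A m p) ∧
      (∀ m p, A (m + 1) (Dn (∏ i ∈ I, (Polynomial.X - Polynomial.C (a i))) (-3 / (d : ℂ)) m p) = 0) ∧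
      A 0 1 ≠ 0 := by
  have hdR : (4 : ℝ) ≤ d := by exact_mod_cast hd
  have hdeg : (∏ i ∈ I, (Polynomial.X - Polynomial.C (a i)) : Polynomial ℂ).natDegree = I.card := by
    rw [Polynomial.natDegree_prod_of_monic _ _ (fun i _ => Polynomial.monic_X_sub_C _)]
    simp
  refine exists_one ?_ ?_ ?_ ?_
  · have h := (Polynomial.separable_prod_X_sub_C_iff' (f := a) (s := I)).2
      (fun x hx y hy hxy => ha hx hy hxy)
    exact h
  · intro k h
    have h1 : ((-3 / (d : ℝ) : ℝ) : ℂ) = ((k : ℝ) : ℂ) := by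
      push_cast
      exact h
    have h2 : -3 / (d : ℝ) = k := Complex.ofReal_injective h1
    have h3 : -3 / (d : ℝ) < 0 := div_neg_of_neg_of_pos (by norm_num) (by linarith)
    have h4 : (0 : ℝ) ≤ k := Nat.cast_nonneg k
    linarith
  · rw [hdeg]; exact hI
  · intro D h
    rw [hdeg] at h
    have h1 : (((D : ℝ) + (1 + -3 / (d : ℝ)) * I.card : ℝ) : ℂ) = ((0 : ℝ) : ℂ) := by
      push_cast
      exact h
    have h2 := Complex.ofReal_injective h1
    have h3 : 0 < 1 + -3 / (d : ℝ) := by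
      have : 3 / (d : ℝ) < 1 := by
        rw [div_lt_one (by linarith)]
        linarith
      have e : -3 / (d : ℝ) = -(3 / (d : ℝ)) := by ring
      rw [e]; linarith
    have h4 : (2 : ℝ) ≤ I.card := by exact_mod_cast hI
    have h5 : (0 : ℝ) ≤ D := Nat.cast_nonneg D
    nlinarith

open MvPolynomial in
/-- Products of two pencils with a common line. -/
theorem hasStokes_prod {d : ℕ} (hd : 4 ≤ d) {ι : Type} (I J : Finset ι) (a b : ι → ℂ)
    (ha : Set.InjOn a (I : Set ι)) (hb : Set.InjOn b (J : Set ι)) (hI : 2 ≤ I.card)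
    (hJ : 2 ≤ J.card) (hIJ : 1 + I.card + J.card = d) :
    HasStokes (X 2 * (∏ i ∈ I, (X 0 - C (a i) * X 2)) * ∏ j ∈ J, (X 1 - C (b j) * X 2) :
      MvPolynomial (Fin 3) ℂ) := by
  obtain ⟨A, hA1, hA2, hA3⟩ := exists_fun hd I a ha hI
  obtain ⟨B, hB1, hB2, hB3⟩ := exists_fun hd J b hb hJ
  refine hasStokes_aff (by omega) ?_ ?_ A B hA1 hA2 hA3 hB1 hB2 hB3
  · have h1 : ∀ (k : Fin 3) (c : ℂ), (X k - C c * X 2 : MvPolynomial (Fin 3) ℂ).IsHomogeneous 1 := by
      intro k c
      refine (isHomogeneous_X ℂ k).sub ?_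
      have := (isHomogeneous_C (Fin 3) c).mul (isHomogeneous_X ℂ (2 : Fin 3))
      simpa using this
    have h2 := ((isHomogeneous_X ℂ (2 : Fin 3)).mul
      (IsHomogeneous.prod I _ _ fun i _ => h1 0 (a i))).mul
      (IsHomogeneous.prod J _ _ fun i _ => h1 1 (b i))
    simp only [Finset.sum_const, smul_eq_mul, mul_one] at h2
    rw [hIJ] at h2
    exact h2
  · rw [map_mul, map_mul, dh_X2, one_mul, map_prod, map_prod, map_prod, map_prod]
    congr 1
    · refine Finset.prod_congr rfl fun i _ => ?_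
      rw [map_sub, map_mul, dh_X0, dh_X2, dh_C, mul_one, map_sub, Polynomial.aeval_X,
        Polynomial.aeval_C]
      rfl
    · refine Finset.prod_congr rfl fun i _ => ?_
      rw [map_sub, map_mul, dh_X1, dh_X2, dh_C, mul_one, map_sub, Polynomial.aeval_X,
        Polynomial.aeval_C]
      rfl

open MvPolynomial in
/-- The Stokes functional of two pencils with a common line. -/
theorem stokes_delta {d : ℕ} (A : Fin d → Fin 3 → ℂ)
    (hA : ∀ i j, i ≠ j → LinearIndependent ℂ ![A i, A j])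
    (hP : ∀ S ∈ Pts A, S.card + 2 ≤ d) {S S' : Finset (Fin d)} (hS : S ∈ Pts A)
    (hS' : S' ∈ Pts A) (h2 : 2 * d < 3 * S.card) (h1 : 3 * S'.card = d) :
    HasStokes (arr3 A) := by
  classical
  have hne : S ≠ S' := by rintro rfl; omega
  have hint : (S ∩ S').card ≤ 1 := by
    by_contra hcon
    obtain ⟨i, hi, j, hj, hij⟩ := one_lt_card.1 (by omega : 1 < (S ∩ S').card)
    rw [mem_inter] at hi hj
    apply hne
    ext l
    rw [mem_of_Pts hA hS hij hi.1 hj.1, mem_of_Pts hA hS' hij hi.2 hj.2]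
  have hun : (S ∪ S').card ≤ d := card_le_d
  have hcards := card_union_add_card_inter S S'
  have hSd := hP S hS
  have hcardS : S.card = 2 * S'.card + 1 := by omega
  have hint1 : (S ∩ S').card = 1 := by omega
  have hunion : S ∪ S' = Finset.univ := by
    rw [← card_eq_iff_eq_univ, Fintype.card_fin]
    omega
  obtain ⟨i0, hi0⟩ := card_eq_one.1 hint1
  have hi0S : i0 ∈ S := (mem_inter.1 (hi0 ▸ mem_singleton_self i0 : i0 ∈ S ∩ S')).1
  have hi0S' : i0 ∈ S' := (mem_inter.1 (hi0 ▸ mem_singleton_self i0 : i0 ∈ S ∩ S')).2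
  set I := S.erase i0 with hI
  set J := S'.erase i0 with hJ
  have hIc : I.card = 2 * S'.card := by rw [hI, card_erase_of_mem hi0S]; omega
  have hJc : J.card + 1 = S'.card := by
    rw [hJ, card_erase_of_mem hi0S']
    have := two_le_card hS'
    omega
  obtain ⟨i1, hi1⟩ : I.Nonempty := card_pos.1 (by omega)
  obtain ⟨j1, hj1⟩ : J.Nonempty := card_pos.1 (by omega)
  have hi1S : i1 ∈ S := mem_of_mem_erase hi1
  have hi1n : i1 ≠ i0 := ne_of_mem_erase hi1
  have hj1S' : j1 ∈ S' := mem_of_mem_erase hj1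
  have hj1n : j1 ≠ i0 := ne_of_mem_erase hj1
  have hj1S : j1 ∉ S := by
    intro h
    have : j1 ∈ S ∩ S' := mem_inter.2 ⟨h, hj1S'⟩
    rw [hi0, mem_singleton] at this
    exact hj1n this
  have hspS : ∀ l, l ∈ S ↔ A l ∈ Submodule.span ℂ {A i1, A i0} :=
    fun l => mem_of_Pts hA hS hi1n hi1S hi0S l
  have hspS' : ∀ l, l ∈ S' ↔ A l ∈ Submodule.span ℂ {A j1, A i0} :=
    fun l => mem_of_Pts hA hS' hj1n hj1S' hi0S' l
  -- the coordinates
  have hv : LinearIndependent ℂ (Fin.cons (A j1) ![A i1, A i0] : Fin 3 → Fin 3 → ℂ) := by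
    refine linearIndependent_finCons.2 ⟨hA _ _ hi1n, ?_⟩
    rw [Matrix.range_cons, Matrix.range_cons, Matrix.range_empty, Set.union_empty,
      Set.singleton_union, ← hspS]
    exact hj1S
  have hv2 : LinearIndependent ℂ ((Fin.cons (A j1) ![A i1, A i0] : Fin 3 → Fin 3 → ℂ) ∘ ![1, 0, 2]) := by
    refine hv.comp _ ?_
    intro a b h
    fin_cases a <;> fin_cases b <;> simp_all
  set M : Matrix (Fin 3) (Fin 3) ℂ :=
    Matrix.of ((Fin.cons (A j1) ![A i1, A i0] : Fin 3 → Fin 3 → ℂ) ∘ ![1, 0, 2]) with hM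
  have hMu : IsUnit M := by
    rw [← Matrix.linearIndependent_rows_iff_isUnit]
    exact hv2
  have hdet := (Matrix.isUnit_iff_isUnit_det _).1 hMu
  have hM0 : M 0 = A i1 := rfl
  have hM1 : M 1 = A j1 := rfl
  have hM2 : M 2 = A i0 := rfl
  -- the coefficients
  have hcoefS : ∀ l, ∃ x y : ℂ, l ∈ S → A l = x • A i1 + y • A i0 := by
    intro l
    by_cases hl : l ∈ S
    · obtain ⟨x, y, h⟩ := Submodule.mem_span_pair.1 ((hspS l).1 hl)
      exact ⟨x, y, fun _ => h.symm⟩
    · exact ⟨0, 0, fun h => absurd h hl⟩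
  choose α β hαβ using hcoefS
  have hcoefS' : ∀ l, ∃ x y : ℂ, l ∈ S' → A l = x • A j1 + y • A i0 := by
    intro l
    by_cases hl : l ∈ S'
    · obtain ⟨x, y, h⟩ := Submodule.mem_span_pair.1 ((hspS' l).1 hl)
      exact ⟨x, y, fun _ => h.symm⟩
    · exact ⟨0, 0, fun h => absurd h hl⟩
  choose γ δ hγδ using hcoefS'
  have hα : ∀ l ∈ I, α l ≠ 0 := by
    intro l hl h0
    have h3 := hαβ l (mem_of_mem_erase hl)
    rw [h0, zero_smul, zero_add] at h3
    have h4 := hA l i0 (ne_of_mem_erase hl)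
    rw [LinearIndependent.pair_iff] at h4
    have h5 := h4 1 (-β l) (by rw [h3]; simp)
    exact one_ne_zero h5.1
  have hγ : ∀ l ∈ J, γ l ≠ 0 := by
    intro l hl h0
    have h3 := hγδ l (mem_of_mem_erase hl)
    rw [h0, zero_smul, zero_add] at h3
    have h4 := hA l i0 (ne_of_mem_erase hl)
    rw [LinearIndependent.pair_iff] at h4
    have h5 := h4 1 (-δ l) (by rw [h3]; simp)
    exact one_ne_zero h5.1
  set a : Fin d → ℂ := fun l => -(β l / α l) with ha
  set b : Fin d → ℂ := fun l => -(δ l / γ l) with hb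
  have hfa : ∀ l ∈ I, A l = α l • (A i1 - a l • A i0) := by
    intro l hl
    rw [hαβ l (mem_of_mem_erase hl), ha]
    simp only
    rw [smul_sub, smul_smul, mul_neg, mul_div_cancel₀ _ (hα l hl), neg_smul, sub_neg_eq_add]
  have hfb : ∀ l ∈ J, A l = γ l • (A j1 - b l • A i0) := by
    intro l hl
    rw [hγδ l (mem_of_mem_erase hl), hb]
    simp only
    rw [smul_sub, smul_smul, mul_neg, mul_div_cancel₀ _ (hγ l hl), neg_smul, sub_neg_eq_add]
  have haI : Set.InjOn a (I : Set (Fin d)) := by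
    intro x hx y hy hxy
    by_contra hne
    have h4 := hA x y hne
    rw [LinearIndependent.pair_iff] at h4
    have h5 := h4 (α y) (-α x) (by
      rw [hfa x hx, hfa y hy, hxy, smul_smul, smul_smul]
      module)
    exact hα y hy h5.1
  have hbJ : Set.InjOn b (J : Set (Fin d)) := by
    intro x hx y hy hxy
    by_contra hne
    have h4 := hA x y hne
    rw [LinearIndependent.pair_iff] at h4
    have h5 := h4 (γ y) (-γ x) (by
      rw [hfb x hx, hfb y hy, hxy, smul_smul, smul_smul]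
      module)
    exact hγ y hy h5.1
  have hst := (hasStokes_prod (d := d) (by omega) I J a b haI hbJ (by omega) (by omega)
    (by omega)).lin M M⁻¹ (Matrix.mul_nonsing_inv _ hdet) (Matrix.nonsing_inv_mul _ hdet)
  set F : MvPolynomial (Fin 3) ℂ := X 2 * (∏ i ∈ I, (X 0 - C (a i) * X 2)) *
    ∏ j ∈ J, (X 1 - C (b j) * X 2) with hF
  have hkey : arr3 A = C ((∏ i ∈ I, α i) * ∏ j ∈ J, γ j) * lin M F := by
    have hdisj : Disjoint I J := by
      rw [disjoint_left]
      intro x hx hx'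
      have : x ∈ S ∩ S' := mem_inter.2 ⟨mem_of_mem_erase hx, mem_of_mem_erase hx'⟩
      rw [hi0, mem_singleton] at this
      exact ne_of_mem_erase hx this
    have hcover : (Finset.univ : Finset (Fin d)) = insert i0 (I ∪ J) := by
      rw [← hunion, hI, hJ]
      ext x
      simp only [mem_union, mem_insert, mem_erase]
      by_cases hx : x = i0
      · subst hx
        simp [hi0S]
      · simp [hx]
    have hnot : i0 ∉ I ∪ J := by
      rw [mem_union, hI, hJ]
      simp
    have hlinC : ∀ c : ℂ, lin M (C c) = C c := fun c => by rw [lin, aeval_C]; rfl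
    have hCC : (C ((∏ i ∈ I, α i) * ∏ j ∈ J, γ j) : MvPolynomial (Fin 3) ℂ) =
        (∏ l ∈ I, C (α l)) * ∏ l ∈ J, C (γ l) := by rw [C_mul, map_prod, map_prod]
    have hlF : lin M F = lin M (X 2) * (∏ l ∈ I, lin M (X 0 - C (a l) * X 2)) *
        ∏ l ∈ J, lin M (X 1 - C (b l) * X 2) := by
      rw [hF, map_mul, map_mul, map_prod, map_prod]
    rw [arr3, hcover, prod_insert hnot, prod_union hdisj, hCC, hlF]
    have e1 : ∏ l ∈ I, (∑ j, C (A l j) * X j : MvPolynomial (Fin 3) ℂ) =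
        (∏ l ∈ I, C (α l)) * ∏ l ∈ I, lin M (X 0 - C (a l) * X 2) := by
      rw [← prod_mul_distrib]
      refine prod_congr rfl fun l hl => ?_
      rw [map_sub, map_mul, lin_X, lin_X, hlinC, hM0, hM2, mul_sub, mul_sum, mul_sum, mul_sum,
        ← sum_sub_distrib]
      refine sum_congr rfl fun j _ => ?_
      have h6 := congrFun (hfa l hl) j
      rw [h6]
      simp only [Pi.smul_apply, Pi.sub_apply, smul_eq_mul, C_mul, C_sub]
      ring
    have e2 : ∏ l ∈ J, (∑ j, C (A l j) * X j : MvPolynomial (Fin 3) ℂ) =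
        (∏ l ∈ J, C (γ l)) * ∏ l ∈ J, lin M (X 1 - C (b l) * X 2) := by
      rw [← prod_mul_distrib]
      refine prod_congr rfl fun l hl => ?_
      rw [map_sub, map_mul, lin_X, lin_X, hlinC, hM1, hM2, mul_sub, mul_sum, mul_sum, mul_sum,
        ← sum_sub_distrib]
      refine sum_congr rfl fun j _ => ?_
      have h6 := congrFun (hfb l hl) j
      rw [h6]
      simp only [Pi.smul_apply, Pi.sub_apply, smul_eq_mul, C_mul, C_sub]
      ring
    rw [e1, e2, lin_X, hM2]
    ring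
  have hFh : (lin M F).IsHomogeneous d := by
    have h3 := arr3_homog A
    have hc0 : (∏ i ∈ I, α i) * ∏ j ∈ J, γ j ≠ 0 :=
      mul_ne_zero (prod_ne_zero_iff.2 hα) (prod_ne_zero_iff.2 hγ)
    have h4 : lin M F = C ((∏ i ∈ I, α i) * ∏ j ∈ J, γ j)⁻¹ * arr3 A := by
      rw [hkey, ← mul_assoc, ← C_mul, inv_mul_cancel₀ hc0, C_1, one_mul]
    rw [h4]
    have := (isHomogeneous_C (Fin 3) ((∏ i ∈ I, α i) * ∏ j ∈ J, γ j)⁻¹).mul h3
    rwa [zero_add] at this
  rw [hkey]
  exact hst.const_mul (by omega) hFh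
    (mul_ne_zero (prod_ne_zero_iff.2 hα) (prod_ne_zero_iff.2 hγ))

end Pool.Agent.helper67.LY
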