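import Mathlib
import Pool.Agent.helper67.LY.Z
import Pool.Agent.helper67.LY.Comb
import Pool.Agent.helper67.LY.Lin
import Pool.Agent.helper67.LY.Gamma
import Pool.Agent.helper67.LY.Delta

/-!
# Final case analysis
-/

set_option autoImplicit false

namespace Pool.Agent.helper67.LY

open MvPolynomial Filter Topology Asymptotics
open Pool.Agent.helper67.IF Pool.Agent.helper67.ND

variable {d : ℕ}

lemma isBigO_monomial {n : ℕ} (m : Fin n →₀ ℕ) (c : ℂ) :
    (fun z => eval z (monomial m c)) =O[𝓝 0] (fun z : Fin n → ℂ => ‖z‖ ^ m.degree) := by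
  refine IsBigO.of_bound ‖c‖ (Eventually.of_forall fun z => ?_)
  rw [eval_monomial, norm_mul, norm_pow, norm_norm]
  refine mul_le_mul_of_nonneg_left ?_ (norm_nonneg _)
  rw [Finsupp.prod, norm_prod, Finsupp.degree_apply, ← Finset.prod_pow_eq_pow_sum]
  refine Finset.prod_le_prod (fun _ _ => norm_nonneg _) fun i _ => ?_
  rw [norm_pow]
  exact pow_le_pow_left₀ (norm_nonneg _) (norm_le_pi_norm z i) _

lemma isBigO_homog {n : ℕ} {g : MvPolynomial (Fin n) ℂ} {N : ℕ} (hg : g.IsHomogeneous N) :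
    (fun z => eval z g) =O[𝓝 0] (fun z : Fin n → ℂ => ‖z‖ ^ N) := by
  have h1 : (fun z => eval z g) = fun z => ∑ m ∈ g.support, eval z (monomial m (g.coeff m)) := by
    funext z
    conv_lhs => rw [g.as_sum]
    rw [map_sum]
  rw [h1]
  have h0 : ∀ m ∈ g.support, (fun z => eval z (monomial m (g.coeff m))) =O[𝓝 0]
      (fun z : Fin n → ℂ => ‖z‖ ^ N) := by
    intro m hm
    have h2 := isBigO_monomial m (g.coeff m)
    have h3 : m.degree = N := by
      have := hg (mem_support_iff.1 hm)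
      rw [← this, Finsupp.degree_eq_weight_one]
      rfl
    rwa [h3] at h2
  exact IsBigO.fun_sum h0

lemma exists_forms_ne_zero (A : Fin d → Fin 3 → ℂ) (hA : ∀ l, A l ≠ 0) :
    arr3 A ≠ 0 := by
  rw [arr3, Finset.prod_ne_zero_iff]
  intro l _ h
  apply hA l
  funext j
  have := congrArg (eval (Pi.single j 1)) h
  rw [map_zero, map_sum] at this
  rw [Finset.sum_eq_single j] at this
  · simpa using this
  · intro b _ hb
    simp [hb]
  · intro h; exact absurd (Finset.mem_univ j) h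

lemma frequently_ne {A : Fin d → Fin 3 → ℂ} (hA : ∀ l, A l ≠ 0)
    {f : (Fin 3 → ℂ) → ℂ}
    (hO : (fun z => f z - ∏ l, (∑ j, A l j * z j)) =O[𝓝 0]
      (fun z : Fin 3 → ℂ => ‖z‖ ^ (d + 1))) :
    ∃ᶠ z in 𝓝 (0 : Fin 3 → ℂ), f z ≠ 0 := by
  intro hcon
  have hcon' : ∀ᶠ z in 𝓝 (0 : Fin 3 → ℂ), f z = 0 := by
    filter_upwards [hcon] with z hz
    exact not_not.1 hz
  have h1 : (fun z => ∏ l, (∑ j, A l j * z j)) =O[𝓝 0] (fun z : Fin 3 → ℂ => ‖z‖ ^ (d + 1)) := by
    refine hO.neg_left.congr' ?_ EventuallyEq.rfl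
    filter_upwards [hcon'] with z hz
    rw [hz]; ring
  apply exists_forms_ne_zero A hA
  refine MvPolynomial.funext fun z => ?_
  rw [map_zero, eval_arr3]
  have h2 : Tendsto (fun t : ℂ => t • z) (𝓝 0) (𝓝 0) := by
    have : Continuous fun t : ℂ => t • z := continuous_id.smul continuous_const
    simpa using this.tendsto 0
  have h3 := h1.comp_tendsto h2
  have h4 : (fun t : ℂ => t ^ d * ∏ l, (∑ j, A l j * z j)) =O[𝓝 0]
      (fun t : ℂ => ‖t‖ ^ (d + 1)) := by
    refine (h3.congr_left fun t => ?_).trans ?_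
    · simp only [Function.comp, Pi.smul_apply, smul_eq_mul]
      have : ∀ l, ∑ j, A l j * (t * z j) = t * ∑ j, A l j * z j := by
        intro l
        rw [Finset.mul_sum]
        exact Finset.sum_congr rfl fun j _ => by ring
      simp only [this]
      rw [Finset.prod_mul_distrib, Finset.prod_const, Finset.card_univ, Fintype.card_fin]
    · refine IsBigO.of_bound (‖z‖ ^ (d + 1)) (Eventually.of_forall fun t => ?_)
      simp only [Function.comp, norm_pow, norm_norm, norm_smul, mul_pow, norm_mul]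
      rw [mul_comm]
  by_contra hne
  have h5 : (fun t : ℂ => t ^ d) =O[𝓝 0] (fun t : ℂ => ‖t‖ ^ (d + 1)) := by
    have := h4.const_mul_left (∏ l, (∑ j, A l j * z j))⁻¹
    refine this.congr_left fun t => ?_
    field_simp
  have h6 : (fun t : ℂ => ‖t‖ ^ (d + 1)) =o[𝓝 0] (fun t : ℂ => t ^ d) := by
    have h7 : (fun t : ℂ => t ^ (d + 1)) =o[𝓝 0] (fun t : ℂ => t ^ d) := by
      have := isLittleO_pow_pow (𝕜 := ℂ) (m := d) (n := d + 1) (by omega)
      exact this
    refine (h7.norm_left).congr_left fun t => ?_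
    rw [norm_pow]
  have h8 := h5.trans_isLittleO h6
  refine isLittleO_irrefl (f'' := fun t : ℂ => t ^ d) ?_ h8
  intro h9
  have h10 : ∀ᶠ t in 𝓝[≠] (0 : ℂ), ¬ (t ^ d ≠ 0) := h9.filter_mono nhdsWithin_le_nhds
  obtain ⟨t, ht, ht'⟩ := (h10.and self_mem_nhdsWithin).exists
  exact ht' (eq_zero_of_pow_eq_zero (not_not.1 ht))

/-- **Lê-Yomdin surface singularities whose tangent cone is a reduced line arrangement.** -/
theorem poles_roots (hd : 2 ≤ d) {k : ℕ} (hk : 1 ≤ k) (A : Fin d → Fin 3 → ℂ)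
    (hA : ∀ i j, i ≠ j → LinearIndependent ℂ ![A i, A j])
    {g : MvPolynomial (Fin 3) ℂ} (hg : g.IsHomogeneous (d + k))
    (hgp : ∀ z : Fin 3 → ℂ, z ≠ 0 → ∀ i j, i ≠ j → ∑ r, A i r * z r = 0 → ∑ r, A j r * z r = 0 →
      eval z g ≠ 0)
    {f : (Fin 3 → ℂ) → ℂ} (hf : AnalyticAt ℂ f 0)
    (hO : (fun z => f z - (∏ l, (∑ j, A l j * z j) + eval z g)) =O[𝓝 0]
      (fun z : Fin 3 → ℂ => ‖z‖ ^ (d + k + 1)))
    {b : Polynomial ℂ} (hb : IsBernstein f b) {a : ℂ} (ha : (Ztop A k).denom.IsRoot a) :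
    b.eval a = 0 ∨ (a = -3 / (d : ℂ) ∧ (∀ S ∈ Pts A, 3 * S.card < 2 * d) ∧
      ∃ S ∈ Pts A, 3 * S.card = d) := by
  classical
  have hfam := IsBernstein.fam hf hb
  have hne : ∀ l, A l ≠ 0 := by
    intro l
    obtain ⟨j, hj⟩ : ∃ j, j ≠ l := by
      by_cases h : l = ⟨0, by omega⟩
      · exact ⟨⟨1, by omega⟩, by rw [h]; intro h'; simp at h'⟩
      · exact ⟨⟨0, by omega⟩, fun h' => h h'.symm⟩
    exact (hA l j hj.symm).ne_zero 0
  have hO' : (fun z => f z - ∏ l, (∑ j, A l j * z j)) =O[𝓝 0]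
      (fun z : Fin 3 → ℂ => ‖z‖ ^ (d + 1)) := by
    have h1 := (isBigO_homog hg).trans (isBigO_norm_pow_mono (n := 3) (by omega : d + 1 ≤ d + k))
    have h2 := hO.trans (isBigO_norm_pow_mono (n := 3) (by omega : d + 1 ≤ d + k + 1))
    refine (h2.add h1).congr_left fun z => ?_
    ring
  have hf0 : f 0 = 0 := by
    obtain ⟨C, hC⟩ := hO'.bound
    have := hC.self_of_nhds
    simp only [Pi.zero_apply, mul_zero, Finset.sum_const_zero, norm_zero] at this
    rw [zero_pow (by omega)] at this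
    rw [Finset.prod_eq_zero (Finset.mem_univ (⟨0, by omega⟩ : Fin d)) rfl] at this
    simpa using this
  by_contra hcon
  push Not at hcon
  obtain ⟨hba, hex⟩ := hcon
  -- `a ≠ -1`
  have hv : vP.eval a ≠ 0 := by
    intro h
    apply hba
    have h1 : a = -1 := by
      simp [vP] at h
      linear_combination h
    rw [h1]
    exact eval_neg_one hf hf0 (frequently_ne hne hO') b hb
  -- the multiple points
  have hT : ∀ S ∈ Pts A, (TP d k S.card).eval a ≠ 0 := by
    intro S hS h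
    apply hba
    obtain ⟨i, j, hij, hmem⟩ := mem_Pts.1 hS
    have h1 := root_T hk A hA hij S hmem hg (fun z hz hi hj => hgp z hz i j hij hi hj) hf hO hfam
    have hS2 := two_le_card hS
    have h2 : a = (-(2 * k + 3 * S.card : ℕ) / ((d + k) * S.card : ℕ) : ℂ) := by
      have h3 : (((d + k) * S.card : ℕ) : ℂ) ≠ 0 := by
        exact_mod_cast (Nat.mul_pos (by omega) (by omega)).ne'
      rw [eq_div_iff h3]
      simp only [TP, Polynomial.eval_add, Polynomial.eval_mul, Polynomial.eval_natCast,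
        Polynomial.eval_X, Polynomial.eval_ofNat] at h
      push_cast
      linear_combination h
    rw [h2]
    exact h1
  have hu : (uP d).eval a = 0 := by
    by_contra h
    exact (Ztop_reg A k a h hv hT).not_pole ha
  have ha3 : a = -3 / (d : ℂ) := by
    have hd0 : (d : ℂ) ≠ 0 := by exact_mod_cast (by omega : d ≠ 0)
    rw [eq_div_iff hd0]
    simp only [uP, Polynomial.eval_add, Polynomial.eval_mul, Polynomial.eval_natCast,
        Polynomial.eval_X, Polynomial.eval_ofNat] at hu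
    linear_combination hu
  -- pencils
  by_cases hpen : ∃ S ∈ Pts A, S.card = d
  · obtain ⟨S, hS, hSd⟩ := hpen
    exact (Ztop_reg_pencil A k hd a (Pts_pencil hA hS hSd) hv hT).not_pole ha
  -- near pencils
  by_cases hnear : ∃ S ∈ Pts A, S.card + 1 = d
  · obtain ⟨S, hS, hSd⟩ := hnear
    have hS2 := two_le_card hS
    have hex2 : ∃ T ∈ Pts A, T.card = 2 := by
      have h1 := Pts_near hA hS hSd (M := ℤ) (fun m => if m = 2 then 1 else 0)
      have h2 : ∑ T ∈ Pts A, (if T.card = 2 then (1 : ℤ) else 0) ≠ 0 := by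
        rw [h1, if_pos rfl]
        split_ifs <;> · push_cast; omega
      obtain ⟨T, hT', hT2⟩ := Finset.exists_ne_zero_of_sum_ne_zero h2
      refine ⟨T, hT', ?_⟩
      by_contra h
      rw [if_neg h] at hT2
      exact hT2 rfl
    obtain ⟨T, hTm, hT2⟩ := hex2
    refine (Ztop_reg_near A k hd a (fun F => Pts_near hA hS hSd F) hv ?_ ?_).not_pole ha
    · have := hT S hS
      rwa [show S.card = d - 1 by omega] at this
    · have := hT T hTm
      rwa [hT2] at this
  push Not at hpen hnear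
  have hP : ∀ S ∈ Pts A, S.card + 2 ≤ d := by
    intro S hS
    have h1 := hpen S hS
    have h2 := hnear S hS
    have h3 := card_le_d (S := S)
    omega
  apply hba
  rw [ha3]
  by_cases hα : ∃ S ∈ Pts A, 3 * S.card = 2 * d
  · obtain ⟨S, hS, hS3⟩ := hα
    obtain ⟨i, j, hij, hmem⟩ := mem_Pts.1 hS
    exact root_log' A hA hij S hmem hS3 hf hO' hfam
  push Not at hα
  by_cases hγ : ∃ S ∈ Pts A, 3 * S.card = d
  swap
  · push Not at hγ
    exact root_gamma A hA hd hP (fun S hS => ⟨hγ S hS, hα S hS⟩) hf hO' hfam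
  obtain ⟨S', hS', h1⟩ := hγ
  by_cases hδ : ∃ S ∈ Pts A, 2 * d < 3 * S.card
  · obtain ⟨S, hS, h2⟩ := hδ
    exact root_of_stokes A (stokes_delta A hA hP hS hS' h2 h1) hf hO' hfam
  push Not at hδ
  exfalso
  refine hex ha3 (fun S hS => ?_) S' hS' h1
  have h2 := hδ S hS
  have h3 := hα S hS
  omega

end Pool.Agent.helper67.LY
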