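import Mathlib
import Pool.Agent.helper67.ND.Defs
import Pool.Agent.helper67.LY.Fin

/-!
# Lê-Yomdin surface singularities whose tangent cone is a reduced line arrangement

`f = ∏_{l < d} (A_l0 x + A_l1 y + A_l2 z) + g + O(|.| ^ (d + k + 1))`: the tangent cone is a
reduced arrangement of `d` lines, and `g` (homogeneous of degree `d + k`) does not vanish at the
multiple points.  `Ztop A k` is the local topological zeta function of `f` at `0`.
-/

set_option autoImplicit false

namespace Pool.Agent.Results.MP_6163c8_ag.LeYomdin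

open MvPolynomial Filter Topology Asymptotics
open Pool.Agent.helper67.ND Pool.Agent.helper67.LY

/-- Every pole of the topological zeta function is a root of the Bernstein-Sato polynomial, except
possibly `-3/d` if all multiplicities are smaller than `2d/3` and one is `d/3`. -/
theorem result {d : ℕ} (hd : 2 ≤ d) {k : ℕ} (hk : 1 ≤ k) (A : Fin d → Fin 3 → ℂ)
    (hA : ∀ i j, i ≠ j → LinearIndependent ℂ ![A i, A j])
    (g : MvPolynomial (Fin 3) ℂ) (hg : g.IsHomogeneous (d + k))
    (hgp : ∀ z : Fin 3 → ℂ, z ≠ 0 → ∀ i j, i ≠ j → ∑ r, A i r * z r = 0 → ∑ r, A j r * z r = 0 →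
      eval z g ≠ 0)
    (f : (Fin 3 → ℂ) → ℂ) (hf : AnalyticAt ℂ f 0)
    (hO : (fun z => f z - (∏ l, (∑ j, A l j * z j) + eval z g)) =O[𝓝 0]
      (fun z : Fin 3 → ℂ => ‖z‖ ^ (d + k + 1)))
    (b : Polynomial ℂ) (hb : IsBernstein f b) (a : ℂ) (ha : (Ztop A k).denom.IsRoot a) :
    b.eval a = 0 ∨ (a = -3 / (d : ℂ) ∧ (∀ S ∈ Pts A, 3 * S.card < 2 * d) ∧
      ∃ S ∈ Pts A, 3 * S.card = d) :=
  poles_roots hd hk A hA hg hgp hf hO hb ha

end Pool.Agent.Results.MP_6163c8_ag.LeYomdin
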